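import Pool.Agent.LCG.Defs

set_option autoImplicit false

namespace LCG

open Finset Function ArithmeticFunction LCB LCD LCE

private theorem avk_tel {p : ℕ} (hp : 2 ≤ p) (K L : ℕ) :
    4 * Real.sin (Real.pi / p) * ∑ i ∈ range L, Real.sin (Real.pi * ((K + i : ℕ) : ℝ) / p) ^ 2 =
      2 * Real.sin (Real.pi / p) * L -
        (Real.sin (Real.pi * (2 * ((K : ℝ) + L) - 1) / p) -
          Real.sin (Real.pi * (2 * (K : ℝ) - 1) / p)) := by
  have hp0 : (p : ℝ) ≠ 0 := by
    have : 0 < p := by omega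
    exact_mod_cast this.ne'
  induction L with
  | zero =>
    simp
  | succ L ih =>
    rw [sum_range_succ, mul_add, ih]
    set x : ℝ := Real.pi * ((K + L : ℕ) : ℝ) / p with hx
    have e1 : Real.pi * (2 * ((K : ℝ) + L) - 1) / p = 2 * x - Real.pi / p := by
      rw [hx]
      push_cast
      field_simp
    have e2 : Real.pi * (2 * ((K : ℝ) + (L + 1 : ℕ)) - 1) / p = 2 * x + Real.pi / p := by
      rw [hx]
      push_cast
      field_simp
      ring
    rw [e1, e2, Real.sin_add, Real.sin_sub, Real.cos_two_mul, Real.cos_sq']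
    push_cast
    ring

private theorem avk_per {p : ℕ} (hp : 2 ≤ p) (K m : ℕ) :
    ∑ i ∈ range (m * p), Real.sin (Real.pi * ((K + i : ℕ) : ℝ) / p) ^ 2 = (m * p : ℝ) / 2 := by
  have hp0 : (0 : ℝ) < p := by
    have : 0 < p := by omega
    exact_mod_cast this
  have h1 := avk_tel hp K (m * p)
  have e : Real.pi * (2 * ((K : ℝ) + (m * p : ℕ)) - 1) / p =
      Real.pi * (2 * (K : ℝ) - 1) / p + m * (2 * Real.pi) := by
    push_cast
    field_simp
    ring
  rw [e, Real.sin_add_nat_mul_two_pi, sub_self, sub_zero] at h1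
  have hs : 0 < Real.sin (Real.pi / p) := by
    apply Real.sin_pos_of_pos_of_lt_pi
    · positivity
    · rw [div_lt_iff₀ hp0]
      have : (2 : ℝ) ≤ p := by exact_mod_cast hp
      nlinarith [Real.pi_pos]
  push_cast at h1
  have h2 : (4 * Real.sin (Real.pi / p)) * (∑ i ∈ range (m * p),
      Real.sin (Real.pi * ((K + i : ℕ) : ℝ) / p) ^ 2) =
      (4 * Real.sin (Real.pi / p)) * ((m * p : ℝ) / 2) := by
    push_cast
    rw [h1]
    ring
  exact mul_left_cancel₀ (by positivity) h2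

private theorem avk_low {p K : ℕ} (hp : 2 ≤ p) (hpK : 2 * p ≤ K) :
    (K : ℝ) / 4 ≤ ∑ k ∈ Ico K (2 * K), Real.sin (Real.pi * (k : ℝ) / p) ^ 2 := by
  rw [sum_Ico_eq_sum_range]
  have h0 : 2 * K - K = K := by omega
  rw [h0]
  have h1 : range (K / p * p) ⊆ range K := by
    apply range_subset_range.2
    exact Nat.div_mul_le_self K p
  have h2 := sum_le_sum_of_subset_of_nonneg (f := fun i : ℕ =>
    Real.sin (Real.pi * ((K + i : ℕ) : ℝ) / p) ^ 2) h1 (fun i _ _ => sq_nonneg _)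
  rw [avk_per hp] at h2
  refine le_trans ?_ h2
  have h3 : K < K / p * p + p := by
    have := Nat.lt_div_mul_add (a := K) (b := p) (by omega)
    exact this
  have h4 : (K : ℝ) < (K / p : ℕ) * p + p := by exact_mod_cast h3
  have h5 : (2 : ℝ) * p ≤ K := by exact_mod_cast hpK
  linarith

/-! ROW AVK (file Avk.lean) -/
theorem exists_k {K a b : ℕ} (hK : 1 ≤ K) (hb : 2 * b ≤ K) : ∃ k, K ≤ k ∧ k < 2 * K ∧
    1 / 4 * ∑ p ∈ pr a b, Real.log p ≤
      ∑ p ∈ pr a b, Real.log p * Real.sin (Real.pi * k / p) ^ 2 := by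
  have h1 : ∑ _k ∈ Ico K (2 * K), (1 / 4 * ∑ p ∈ pr a b, Real.log p) ≤
      ∑ k ∈ Ico K (2 * K), ∑ p ∈ pr a b, Real.log p * Real.sin (Real.pi * (k : ℝ) / p) ^ 2 := by
    rw [sum_const, Nat.card_Ico, sum_comm]
    have h0 : 2 * K - K = K := by omega
    rw [h0, nsmul_eq_mul, mul_sum, mul_sum]
    refine sum_le_sum fun p hp => ?_
    have hp' : p.Prime ∧ p ≤ b := by
      unfold pr at hp
      rw [mem_filter, mem_Ioc] at hp
      exact ⟨hp.2, hp.1.2⟩
    have h2 := avk_low hp'.1.two_le (K := K) (by omega)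
    rw [← mul_sum]
    have hlog : 0 ≤ Real.log p := Real.log_nonneg (by exact_mod_cast hp'.1.one_lt.le)
    calc (K : ℝ) * (1 / 4 * Real.log p) = Real.log p * (K / 4) := by ring
      _ ≤ _ := mul_le_mul_of_nonneg_left h2 hlog
  obtain ⟨k, hk, hk'⟩ := exists_le_of_sum_le (nonempty_Ico.2 (by omega)) h1
  rw [mem_Ico] at hk
  exact ⟨k, hk.1, hk.2, hk'⟩

end LCG
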