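import Pool.Agent.LCG.Defs

set_option autoImplicit false

namespace LCG

open Finset Function ArithmeticFunction LCB LCD LCE

theorem theta_dy : ∃ Y0 : ℕ, ∀ Y : ℕ, Y0 ≤ Y → (Y : ℝ) / 4 ≤ ∑ p ∈ pr (Y / 4) Y, Real.log p := by
  have hlo : ∀ᶠ x : ℝ in Filter.atTop, ‖Real.log x‖ ≤ (1 / 100) * ‖x ^ (1 / 2 : ℝ)‖ :=
    (isLittleO_log_rpow_atTop (by norm_num : (0 : ℝ) < 1 / 2)).bound (by norm_num)
  obtain ⟨X0, hX0⟩ := Filter.eventually_atTop.1 hlo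
  refine ⟨⌈X0⌉₊ + 1, fun Y hY => ?_⟩
  have hYX : X0 ≤ (Y : ℝ) := by
    have h1 := Nat.le_ceil X0
    have h2 : ((⌈X0⌉₊ + 1 : ℕ) : ℝ) ≤ Y := by exact_mod_cast hY
    push_cast at h2
    linarith
  have hY1 : (1 : ℝ) ≤ Y := by
    have : 1 ≤ Y := by omega
    exact_mod_cast this
  have hth : ∀ n : ℕ, Chebyshev.theta n = ∑ p ∈ pr 0 n, Real.log p := by
    intro n
    unfold Chebyshev.theta pr
    rw [Nat.floor_natCast]
  have hle : Y / 4 ≤ Y := Nat.div_le_self _ _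
  have hsplit : ∑ p ∈ pr 0 Y, Real.log p = ∑ p ∈ pr 0 (Y / 4), Real.log p +
      ∑ p ∈ pr (Y / 4) Y, Real.log p := by
    have h1 : pr 0 Y = pr 0 (Y / 4) ∪ pr (Y / 4) Y := by
      unfold pr
      rw [← filter_union, Ioc_union_Ioc_eq_Ioc (Nat.zero_le _) hle]
    rw [h1, sum_union]
    unfold pr
    refine disjoint_filter_filter ?_
    rw [disjoint_left]
    intro x hx hx'
    rw [mem_Ioc] at hx hx'
    omega
  have hge := Chebyshev.theta_ge Y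
  have hup := Chebyshev.theta_le_log4_mul_x (x := ((Y / 4 : ℕ) : ℝ)) (by positivity)
  rw [hth] at hge hup
  have h4 : ((Y / 4 : ℕ) : ℝ) ≤ (Y : ℝ) / 4 := Nat.cast_div_le
  have hl4 : Real.log 4 = 2 * Real.log 2 := by
    rw [show (4 : ℝ) = 2 ^ 2 by norm_num, Real.log_pow]
    norm_num
  have hl2 := Real.log_two_gt_d9
  have hl2' := Real.log_two_lt_d9
  have ha := hX0 Y hYX
  have hb := hX0 (Y + 1) (by linarith)
  rw [← Real.sqrt_eq_rpow, Real.norm_of_nonneg (Real.log_nonneg hY1),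
    Real.norm_of_nonneg (Real.sqrt_nonneg _)] at ha
  rw [← Real.sqrt_eq_rpow, Real.norm_of_nonneg (Real.log_nonneg (by linarith)),
    Real.norm_of_nonneg (Real.sqrt_nonneg _)] at hb
  have hs1 : √(Y : ℝ) * √(Y : ℝ) = Y := Real.mul_self_sqrt (by positivity)
  have hs0 : 0 ≤ √(Y : ℝ) := Real.sqrt_nonneg _
  have h5 : 2 * √(Y : ℝ) * Real.log Y ≤ Y / 50 := by
    calc 2 * √(Y : ℝ) * Real.log Y ≤ 2 * √(Y : ℝ) * (1 / 100 * √(Y : ℝ)) :=
          mul_le_mul_of_nonneg_left ha (by positivity)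
      _ = (√(Y : ℝ) * √(Y : ℝ)) / 50 := by ring
      _ = Y / 50 := by rw [hs1]
  have h6 : √((Y : ℝ) + 1) ≤ Y + 1 := by
    rw [Real.sqrt_le_left (by linarith)]
    nlinarith
  have h7 : Real.log (Y + 1) ≤ Y / 50 := by
    have : 1 / 100 * √((Y : ℝ) + 1) ≤ 1 / 100 * (Y + 1) := by linarith
    linarith
  rw [hl4] at hup
  have h8 : 2 * Real.log 2 * ((Y / 4 : ℕ) : ℝ) ≤ 2 * Real.log 2 * ((Y : ℝ) / 4) :=
    mul_le_mul_of_nonneg_left h4 (by linarith)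
  have h9 : (69 / 100 : ℝ) * Y ≤ Y * Real.log 2 := by nlinarith
  nlinarith

end LCG
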