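import Pool.Agent.LCG.Defs
import Pool.Agent.LCB.Sng

/-!
# LCG: orthogonality of the block function and a wave with another period
-/

set_option autoImplicit false

namespace LCG

open Finset Function ArithmeticFunction LCB LCD LCE

theorem av_X_sn_ne {d m Q : ℕ} (hQ : 0 < Q) (hd : d ∣ Q) (hm : m ∣ Q) (hmd : ¬ m ∣ d) (k : ℕ) :
    av Q (fun n => X d k n * sn m n) = 0 := by
  have hm0 : 0 < m := Nat.pos_of_dvd_of_pos hm hQ
  have hmC : (m : ℂ) ≠ 0 := by exact_mod_cast hm0.ne'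
  set ζ : ℂ := Complex.exp (2 * Real.pi * Complex.I / m) with hζ
  set Z : ℂ := ∑ n ∈ range Q, (X d k n : ℂ) * ζ ^ n with hZ
  have hζQ : ζ ^ Q = 1 := by
    obtain ⟨t, rfl⟩ := hm
    rw [hζ, ← Complex.exp_nat_mul]
    have : ((m * t : ℕ) : ℂ) * (2 * Real.pi * Complex.I / m) = (t : ℤ) * (2 * Real.pi * Complex.I) := by
      push_cast
      field_simp
    rw [this]
    exact Complex.exp_int_mul_two_pi_mul_I t
  have hXd : ∀ n, X d k (n + d) = X d k n := fun n => X_per d k n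
  have hper : ∀ n, (X d k (n + Q) : ℂ) * ζ ^ (n + Q) = (X d k n : ℂ) * ζ ^ n := by
    intro n
    rw [per_of_dvd (X_per d k) hd n, pow_add, hζQ, mul_one]
  have h1 := csum_shift (F := fun n => (X d k n : ℂ) * ζ ^ n) hper d
  have h2 : ∑ n ∈ range Q, (X d k (n + d) : ℂ) * ζ ^ (n + d) = ζ ^ d * Z := by
    rw [hZ, mul_sum]
    refine sum_congr rfl fun n _ => ?_
    rw [hXd n, pow_add]
    ring
  have h3 : ζ ^ d * Z = Z := by rw [← h2]; exact h1
  have hζd : ζ ^ d ≠ 1 := by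
    rw [hζ, ← Complex.exp_nat_mul, Ne, Complex.exp_eq_one_iff]
    rintro ⟨n, hn⟩
    have hpi : (2 * (Real.pi : ℂ) * Complex.I) ≠ 0 := Complex.two_pi_I_ne_zero
    have h4 : (d : ℂ) = n * m := by
      have h5 : (d : ℂ) * (2 * Real.pi * Complex.I / m) = ((d : ℂ) / m) * (2 * Real.pi * Complex.I) := by ring
      rw [h5] at hn
      have h6 := mul_right_cancel₀ hpi hn
      rw [div_eq_iff hmC] at h6
      exact h6
    have h5 : (d : ℤ) = n * m := by exact_mod_cast h4
    apply hmd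
    have h6 : (m : ℤ) ∣ d := ⟨n, by rw [h5]; ring⟩
    exact_mod_cast h6
  have hZ0 : Z = 0 := by
    have h4 : (ζ ^ d - 1) * Z = 0 := by rw [sub_mul, h3, one_mul, sub_self]
    rcases mul_eq_zero.1 h4 with h | h
    · exact absurd (sub_eq_zero.1 h) hζd
    · exact h
  have h4 : ∑ n ∈ range Q, X d k n * sn m n =
      (Complex.exp (((Real.pi / m : ℝ) : ℂ) * Complex.I) * Z).im := by
    rw [hZ, mul_sum, Complex.im_sum]
    refine sum_congr rfl fun n _ => ?_
    have h5 : Complex.exp (((Real.pi / m : ℝ) : ℂ) * Complex.I) * ((X d k n : ℂ) * ζ ^ n) =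
        (X d k n : ℂ) * Complex.exp (((2 * Real.pi * (((n : ℝ) + 1 / 2) / m) : ℝ) : ℂ) * Complex.I) := by
      rw [hζ, ← Complex.exp_nat_mul, mul_left_comm, ← Complex.exp_add]
      congr 2
      push_cast
      field_simp
      ring
    rw [h5, Complex.im_ofReal_mul, Complex.exp_ofReal_mul_I_im]
    rfl
  unfold av
  rw [h4, hZ0, mul_zero, Complex.zero_im, zero_div]

end LCG
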