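import Pool.Agent.LCG.Sin
import Pool.Agent.LCG.Ort

/-!
# The correlation of the prime power sum with the flat test function
-/

set_option autoImplicit false

namespace LCG

open Finset Function ArithmeticFunction LCB LCD LCE

private theorem cor_per {m : ℕ} (hm : 1 ≤ m) : Periodic (sn m) m := by
  intro n
  have h0 : (m : ℝ) ≠ 0 := by
    have : (0 : ℝ) < m := by exact_mod_cast hm
    exact this.ne'
  unfold sn
  have h1 : 2 * Real.pi * ((((n + m : ℕ) : ℝ) + 1 / 2) / m) =
      2 * Real.pi * (((n : ℝ) + 1 / 2) / m) + 2 * Real.pi := by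
    push_cast
    field_simp
    ring
  rw [h1, Real.sin_add_two_pi]

private theorem cor_sin_pos {m : ℕ} (hm : 2 ≤ m) : 0 < Real.sin (Real.pi / m) := by
  have h2 : (2 : ℝ) ≤ m := by exact_mod_cast hm
  apply Real.sin_pos_of_pos_of_lt_pi
  · have := Real.pi_pos
    positivity
  · have := Real.pi_pos
    rw [div_lt_iff₀ (by linarith)]
    nlinarith

private theorem cor_eq {k Q d m : ℕ} (hQ : 0 < Q) (hd : 0 < d) (hdQ : d ∣ Q) (hm : 2 ≤ m)
    (hmd : m ∣ d) :
    av Q (fun n => X d k n * sn m n) =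
      2 / d * (Real.sin (Real.pi * k / m) ^ 2 / Real.sin (Real.pi / m)) := by
  have hper : Periodic (fun n => X d k n * sn m n) d :=
    per_mul (X_per d k) (per_of_dvd (cor_per (by omega)) hmd)
  rw [av_of_dvd hper hdQ hQ, av_X_sn hm hmd hd k]

private theorem cor_nonneg {k Q d m : ℕ} (hQ : 0 < Q) (hd : 0 < d) (hdQ : d ∣ Q) (hm : 2 ≤ m)
    (hmQ : m ∣ Q) : 0 ≤ av Q (fun n => X d k n * sn m n) := by
  by_cases hmd : m ∣ d
  · rw [cor_eq hQ hd hdQ hm hmd]
    have := (cor_sin_pos hm).le
    positivity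
  · rw [av_X_sn_ne hQ hdQ hmQ hmd k]

theorem av_Ph_GG {k a b Q : ℕ} (hQ : 0 < Q) (hQd : ∀ d, 1 ≤ d → d ≤ k → d ∣ Q) (ha : 1 ≤ a)
    (hbk : b ≤ k) :
    2 / Real.pi * ∑ p ∈ pr a b, Real.log p * Real.sin (Real.pi * k / p) ^ 2 ≤
      av Q (fun n => Ph k n * GG a b n) := by

  have hexp : av Q (fun n => Ph k n * GG a b n) =
      ∑ d ∈ Icc 1 k, ∑ m ∈ Ioc a b, Λ d * av Q (fun n => X d k n * sn m n) := by
    have h1 : (fun n => Ph k n * GG a b n) =
        fun n => ∑ d ∈ Icc 1 k, ∑ m ∈ Ioc a b, Λ d * (X d k n * sn m n) := by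
      funext n
      unfold Ph GG
      rw [Finset.sum_mul_sum]
      refine sum_congr rfl fun d _ => sum_congr rfl fun m _ => ?_
      ring
    rw [h1, av_sum]
    refine sum_congr rfl fun d _ => ?_
    rw [av_sum]
    refine sum_congr rfl fun m _ => ?_
    rw [av_mul_left]
  have hnn : ∀ d ∈ Icc 1 k, ∀ m ∈ Ioc a b, 0 ≤ Λ d * av Q (fun n => X d k n * sn m n) := by
    intro d hd m hm
    rw [mem_Icc] at hd
    rw [mem_Ioc] at hm
    exact mul_nonneg vonMangoldt_nonneg
      (cor_nonneg hQ (by omega) (hQd d hd.1 hd.2) (by omega) (hQd m (by omega) (by omega)))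
  have hsub : pr a b ⊆ Icc 1 k := by
    intro p hp
    unfold pr at hp
    rw [mem_filter, mem_Ioc] at hp
    rw [mem_Icc]
    omega
  rw [hexp]
  calc 2 / Real.pi * ∑ p ∈ pr a b, Real.log p * Real.sin (Real.pi * k / p) ^ 2
      = ∑ p ∈ pr a b, 2 / Real.pi * (Real.log p * Real.sin (Real.pi * k / p) ^ 2) := by
        rw [mul_sum]
    _ ≤ ∑ p ∈ pr a b, Λ p * av Q (fun n => X p k n * sn p n) := by
        refine sum_le_sum fun p hp => ?_
        have hp' := hsub hp
        rw [mem_Icc] at hp'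
        unfold pr at hp
        rw [mem_filter, mem_Ioc] at hp
        have hpp := hp.2
        have hp0 : (0 : ℝ) < p := by exact_mod_cast hpp.pos
        rw [cor_eq hQ hpp.pos (hQd p hp'.1 hp'.2) hpp.two_le dvd_rfl,
          vonMangoldt_apply_prime hpp]
        have hs := cor_sin_pos hpp.two_le
        have hlog : 0 ≤ Real.log p := Real.log_natCast_nonneg p
        have hpi := Real.pi_pos
        have hle : Real.sin (Real.pi / p) ≤ Real.pi / p := Real.sin_le (by positivity)
        have h1 : 2 / Real.pi ≤ 2 / p * (1 / Real.sin (Real.pi / p)) := by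
          rw [div_mul_div_comm, mul_one]
          apply div_le_div_of_nonneg_left (by norm_num) (by positivity)
          calc (p : ℝ) * Real.sin (Real.pi / p) ≤ p * (Real.pi / p) := by gcongr
            _ = Real.pi := by field_simp
        calc 2 / Real.pi * (Real.log p * Real.sin (Real.pi * k / p) ^ 2)
            ≤ 2 / p * (1 / Real.sin (Real.pi / p)) *
              (Real.log p * Real.sin (Real.pi * k / p) ^ 2) :=
              mul_le_mul_of_nonneg_right h1 (by positivity)
          _ = Real.log p * (2 / p * (Real.sin (Real.pi * k / p) ^ 2 /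
              Real.sin (Real.pi / p))) := by ring
    _ ≤ ∑ p ∈ pr a b, ∑ m ∈ Ioc a b, Λ p * av Q (fun n => X p k n * sn m n) := by
        refine sum_le_sum fun p hp => ?_
        have hp' := hsub hp
        unfold pr at hp
        rw [mem_filter] at hp
        exact single_le_sum (f := fun m => Λ p * av Q (fun n => X p k n * sn m n))
          (fun m hm => hnn p hp' m hm) hp.1
    _ ≤ ∑ d ∈ Icc 1 k, ∑ m ∈ Ioc a b, Λ d * av Q (fun n => X d k n * sn m n) :=
        sum_le_sum_of_subset_of_nonneg hsub fun d hd _ => sum_nonneg fun m hm => hnn d hd m hm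

end LCG
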