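import Pool.Agent.LCG.KL

set_option autoImplicit false

namespace Pool.Agent.LCG

open Complex

lemma flat_second_diff (t : ℝ) (m : ℕ) (hm : 1 ≤ m) :
    t / ((m + 2 : ℕ) : ℝ) - 2 * (t / ((m + 1 : ℕ) : ℝ)) + t / (m : ℝ) =
      2 * t / ((m : ℝ) * (m + 1) * (m + 2)) := by
  have h1 : (0 : ℝ) < m := by exact_mod_cast hm
  push_cast
  field_simp
  ring

/-- the flatness of the tails: van der Corput's second derivative test for `t / m` -/
theorem flat_gen (t : ℝ) (ht : 0 < t) (a b : ℕ) (hb : 1 ≤ b) (hab : a ≤ b)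
    (hb4 : b ≤ 4 * (a + 1)) (hbt : (b : ℝ) ^ 2 ≤ 16 * t) :
    |∑ m ∈ Finset.Ioc a b, Real.sin (2 * Real.pi * (t / m))| ≤ 2400 * Real.sqrt (t / b) := by
  have ha0 : (0 : ℝ) ≤ a := Nat.cast_nonneg a
  have habR : (a : ℝ) ≤ b := by exact_mod_cast hab
  have hb1 : (1 : ℝ) ≤ b := by exact_mod_cast hb
  have hb4R : (b : ℝ) ≤ 4 * (a + 1) := by exact_mod_cast hb4
  have hb0 : (0 : ℝ) < b := by linarith
  set lam : ℝ := 2 * t / ((b : ℝ) * (b + 1) * (b + 2)) with hlamdef
  have hden : (0 : ℝ) < (b : ℝ) * (b + 1) * (b + 2) := by positivity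
  have hlam : 0 < lam := by positivity
  have key := second_difference_test (f := fun m => t / (m : ℝ)) (a := a + 1) (b := b + 1)
    (lam := lam) (A := 64) hlam (by norm_num)
    (by
      intro n h1 h2
      have hn1 : 1 ≤ n := by omega
      have hnR : (1 : ℝ) ≤ n := by exact_mod_cast hn1
      have hnb : (n : ℝ) ≤ b := by
        have : n ≤ b := by omega
        exact_mod_cast this
      have e := flat_second_diff t n hn1
      rw [e, hlamdef]
      apply div_le_div_of_nonneg_left (by positivity) (by positivity)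
      gcongr)
    (by
      intro n h1 h2
      have hn1 : 1 ≤ n := by omega
      have hnR : (1 : ℝ) ≤ n := by exact_mod_cast hn1
      have hna : (a : ℝ) + 1 ≤ n := by exact_mod_cast h1
      have e := flat_second_diff t n hn1
      rw [e, hlamdef, ← mul_div_assoc, div_le_div_iff₀ (by positivity) (by positivity)]
      have h3 : (b : ℝ) * (b + 1) * (b + 2) ≤ (4 * n) * (4 * (n + 1)) * (4 * (n + 2)) := by
        have c1 : (b : ℝ) ≤ 4 * n := by linarith
        have c2 : (b : ℝ) + 1 ≤ 4 * (n + 1) := by linarith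
        have c3 : (b : ℝ) + 2 ≤ 4 * (n + 2) := by linarith
        gcongr
      have h4 : 2 * t * ((b : ℝ) * (b + 1) * (b + 2)) ≤
          2 * t * ((4 * n) * (4 * (n + 1)) * (4 * (n + 2))) :=
        mul_le_mul_of_nonneg_left h3 (by positivity)
      nlinarith [h4])
    (by omega)
  have hsum : |∑ m ∈ Finset.Ioc a b, Real.sin (2 * Real.pi * (t / m))| ≤
      ‖∑ n ∈ Finset.Ico (a + 1) (b + 1), cexp (2 * Real.pi * I * ((fun m : ℕ => t / (m : ℝ)) n : ℝ))‖ := by
    have e1 : Finset.Ico (a + 1) (b + 1) = Finset.Ioc a b := by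
      ext n
      simp only [Finset.mem_Ico, Finset.mem_Ioc]
      omega
    rw [e1]
    have e2 : ∑ m ∈ Finset.Ioc a b, Real.sin (2 * Real.pi * (t / m)) =
        (∑ n ∈ Finset.Ioc a b, cexp (2 * Real.pi * I * ((fun m : ℕ => t / (m : ℝ)) n : ℝ))).im := by
      rw [Complex.im_sum]
      refine Finset.sum_congr rfl fun n _ => ?_
      have e3 : (2 * Real.pi * I * ((fun m : ℕ => t / (m : ℝ)) n : ℝ) : ℂ) =
          ((2 * Real.pi * (t / (n : ℝ)) : ℝ) : ℂ) * I := by
        push_cast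
        ring
      rw [e3, Complex.exp_ofReal_mul_I_im]
    rw [e2]
    exact Complex.abs_im_le_norm _
  refine hsum.trans (key.trans ?_)
  -- the two terms
  set s : ℝ := Real.sqrt (t / b) with hs
  have hs0 : 0 ≤ s := Real.sqrt_nonneg _
  have hss : s ^ 2 = t / b := Real.sq_sqrt (by positivity)
  have hl0 : 0 < Real.sqrt lam := Real.sqrt_pos.2 hlam
  have hll : Real.sqrt lam ^ 2 = lam := Real.sq_sqrt hlam.le
  have h1 : ((b : ℝ) - a) * Real.sqrt lam ≤ 10 / 7 * s := by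
    have h2 : (b : ℝ) * Real.sqrt lam ≤ 10 / 7 * s := by
      apply (pow_le_pow_iff_left₀ (by positivity) (by positivity) two_ne_zero).1
      rw [mul_pow, mul_pow, hll, hss, hlamdef, mul_div_assoc', mul_div_assoc',
        div_le_div_iff₀ hden hb0]
      nlinarith [mul_pos ht hb0, mul_pos (mul_pos ht hb0) hb0,
        mul_pos (mul_pos (mul_pos ht hb0) hb0) hb0]
    have h3 : ((b : ℝ) - a) * Real.sqrt lam ≤ b * Real.sqrt lam :=
      mul_le_mul_of_nonneg_right (by linarith) hl0.le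
    linarith
  have h4 : 1 / Real.sqrt lam ≤ 28 * s := by
    rw [div_le_iff₀ hl0]
    have h5 : (1 : ℝ) ≤ (28 * s * Real.sqrt lam) ^ 2 := by
      rw [mul_pow, mul_pow, hll, hss, hlamdef]
      have e : (28 : ℝ) ^ 2 * (t / b) * (2 * t / (b * (b + 1) * (b + 2))) =
          (28 ^ 2 * 2 * t ^ 2) / (b * (b * (b + 1) * (b + 2))) := by
        field_simp
      rw [e, le_div_iff₀ (by positivity)]
      have h6 : (b : ℝ) * (b * (b + 1) * (b + 2)) ≤ 6 * (b : ℝ) ^ 4 := by
        have c1 : (b : ℝ) + 1 ≤ 2 * b := by linarith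
        have c2 : (b : ℝ) + 2 ≤ 3 * b := by linarith
        calc (b : ℝ) * (b * (b + 1) * (b + 2)) ≤ b * (b * (2 * b) * (3 * b)) := by gcongr
          _ = 6 * (b : ℝ) ^ 4 := by ring
      have h7 : ((b : ℝ) ^ 2) ^ 2 ≤ (16 * t) ^ 2 := by gcongr
      nlinarith [h6, h7]
    have h8 : (0 : ℝ) ≤ 28 * s * Real.sqrt lam := by positivity
    nlinarith [h5, h8]
  have h9 : (((b + 1 : ℕ) : ℝ) - ((a + 1 : ℕ) : ℝ)) = (b : ℝ) - a := by push_cast; ring
  rw [h9]
  nlinarith [h1, h4, hs0]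

theorem flat (t : ℝ) (ht : 0 < t) (a b : ℕ) (ha : 1 ≤ a) (hab : a ≤ b) (hb4 : b ≤ 4 * a)
    (hbt : (b : ℝ) ^ 2 ≤ 16 * t) :
    |∑ m ∈ Finset.Ioc a b, Real.sin (2 * Real.pi * (t / m))| ≤ 2400 * Real.sqrt (t / b) :=
  flat_gen t ht a b (by omega) hab (by omega) hbt

end Pool.Agent.LCG
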