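import Pool.Agent.LCG.Defs
import Pool.Agent.LCG.Flat

set_option autoImplicit false

namespace LCG

open Finset Function ArithmeticFunction LCB LCD LCE

theorem GG_le {Y n : ℕ} (hY : 1 ≤ Y) (hn : Y ^ 2 ≤ n) :
    |GG (Y / 4) Y n| ≤ 8000 * √((n : ℝ) / Y) := by
  have hYR : (1 : ℝ) ≤ Y := by exact_mod_cast hY
  have hnR : (Y : ℝ) ^ 2 ≤ n := by exact_mod_cast hn
  have hn1 : (1 : ℝ) ≤ n := by nlinarith
  have h1 := Pool.Agent.LCG.flat_gen ((n : ℝ) + 1 / 2) (by positivity) (Y / 4) Y hY (by omega)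
    (by omega) (by linarith)
  have h2 : GG (Y / 4) Y n =
      ∑ m ∈ Finset.Ioc (Y / 4) Y, Real.sin (2 * Real.pi * (((n : ℝ) + 1 / 2) / m)) := rfl
  rw [h2]
  refine h1.trans ?_
  have h3 : Real.sqrt (((n : ℝ) + 1 / 2) / Y) ≤ 3 / 2 * √((n : ℝ) / Y) := by
    rw [Real.sqrt_le_left (by positivity), mul_pow, Real.sq_sqrt (by positivity)]
    rw [← mul_div_assoc, div_le_div_iff_of_pos_right (by linarith)]
    linarith
  have h4 : 0 ≤ √((n : ℝ) / Y) := Real.sqrt_nonneg _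
  linarith

end LCG
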