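import Pool.Agent.LCG.Defs

/-!
# LCG: the weight and averages of periodic functions
-/

set_option autoImplicit false

namespace LCG

open Finset Function ArithmeticFunction LCB LCD LCE

private theorem kav_sq (n : ℕ) (a θ : ℕ → ℝ) :
    ‖∑ s ∈ range n, (a s : ℂ) * Complex.exp ((θ s : ℂ) * Complex.I)‖ ^ 2 =
      ∑ s ∈ range n, ∑ t ∈ range n, a s * a t * Real.cos (θ s - θ t) := by
  have hre : (∑ s ∈ range n, (a s : ℂ) * Complex.exp ((θ s : ℂ) * Complex.I)).re =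
      ∑ s ∈ range n, a s * Real.cos (θ s) := by
    rw [Complex.re_sum]
    refine sum_congr rfl fun s _ => ?_
    rw [Complex.re_ofReal_mul, Complex.exp_ofReal_mul_I_re]
  have him : (∑ s ∈ range n, (a s : ℂ) * Complex.exp ((θ s : ℂ) * Complex.I)).im =
      ∑ s ∈ range n, a s * Real.sin (θ s) := by
    rw [Complex.im_sum]
    refine sum_congr rfl fun s _ => ?_
    rw [Complex.im_ofReal_mul, Complex.exp_ofReal_mul_I_im]
  rw [Complex.sq_norm, Complex.normSq_apply, hre, him, sum_mul_sum, sum_mul_sum,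
    ← sum_add_distrib]
  refine sum_congr rfl fun s _ => ?_
  rw [← sum_add_distrib]
  refine sum_congr rfl fun t _ => ?_
  rw [Real.cos_sub]
  ring

open Polynomial in
private theorem kav_pow {M H J c : ℕ} (j : ℕ) :
    dk M H c j ^ J = ∑ s ∈ range (J * (H - 1) + 1),
      (((((∑ i ∈ range H, (Polynomial.X : ℝ[X]) ^ i) ^ J).coeff s : ℝ)) : ℂ) *
        Complex.exp (((2 * Real.pi * s * ((j : ℝ) - c) / M : ℝ) : ℂ) * Complex.I) := by
  set p : ℝ[X] := (∑ i ∈ range H, (Polynomial.X : ℝ[X]) ^ i) ^ J with hp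
  set z : ℂ := Complex.exp (2 * Real.pi * Complex.I * (((j : ℂ) - c) / M)) with hz
  have hzs : ∀ s : ℕ, z ^ s = Complex.exp (2 * Real.pi * Complex.I * ((s : ℂ) * ((j : ℂ) - c) / M)) := by
    intro s
    rw [hz, ← Complex.exp_nat_mul]
    congr 1
    ring
  have h1 : dk M H c j = aeval z (∑ i ∈ range H, (Polynomial.X : ℝ[X]) ^ i) := by
    unfold dk
    rw [map_sum]
    refine sum_congr rfl fun s _ => ?_
    rw [map_pow, aeval_X, hzs]
  have hdeg : p.natDegree < J * (H - 1) + 1 := by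
    have h2 : (∑ i ∈ range H, (Polynomial.X : ℝ[X]) ^ i).natDegree ≤ H - 1 := by
      refine natDegree_sum_le_of_forall_le _ _ fun i hi => ?_
      rw [mem_range] at hi
      exact (natDegree_X_pow_le i).trans (by omega)
    have h3 : p.natDegree ≤ J * (H - 1) := by
      rw [hp]
      exact natDegree_pow_le.trans (Nat.mul_le_mul_left _ h2)
    omega
  rw [h1, ← map_pow, ← hp, aeval_eq_sum_range' hdeg]
  refine sum_congr rfl fun s _ => ?_
  rw [hzs, Complex.real_smul]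
  congr 2
  push_cast
  ring

open Polynomial in
private theorem kav_wt {M H J c : ℕ} (j : ℕ) : wt M H J c j =
    ∑ s ∈ range (J * (H - 1) + 1), ∑ t ∈ range (J * (H - 1) + 1),
      (((∑ i ∈ range H, (Polynomial.X : ℝ[X]) ^ i) ^ J).coeff s * ((∑ i ∈ range H, (Polynomial.X : ℝ[X]) ^ i) ^ J).coeff t /
        (H : ℝ) ^ (2 * J)) *
        Real.cos (2 * Real.pi * ((s : ℝ) - t) * ((j : ℝ) - c) / M) := by
  have h1 : wt M H J c j = ‖dk M H c j ^ J‖ ^ 2 / (H : ℝ) ^ (2 * J) := by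
    unfold wt
    rw [div_pow, norm_pow, ← pow_mul, mul_comm J 2]
  rw [h1, kav_pow, kav_sq, sum_div]
  refine sum_congr rfl fun s _ => ?_
  rw [sum_div]
  refine sum_congr rfl fun t _ => ?_
  have h2 : 2 * Real.pi * (s : ℝ) * ((j : ℝ) - c) / M - 2 * Real.pi * (t : ℝ) * ((j : ℝ) - c) / M =
      2 * Real.pi * ((s : ℝ) - t) * ((j : ℝ) - c) / M := by ring
  rw [h2]
  ring

/-- a trigonometric sum of small degree against a periodic function -/
private theorem kav_orth {Q0 N q n c : ℕ} (hQ : 0 < Q0) (hN : 0 < N) (hq : q ∣ Q0)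
    (hn : n * q < N * Q0) {g : ℕ → ℝ} (hp : Periodic g q) (a : ℕ → ℕ → ℝ) :
    ∑ j ∈ range (N * Q0), (∑ s ∈ range (n + 1), ∑ t ∈ range (n + 1),
      a s t * Real.cos (2 * Real.pi * ((s : ℝ) - t) * ((j : ℝ) - c) / (N * Q0 : ℕ))) * g j =
      (∑ s ∈ range (n + 1), a s s) * ∑ j ∈ range (N * Q0), g j := by
  have hM : 0 < N * Q0 := Nat.mul_pos hN hQ
  have hqd : q ∣ N * Q0 := hq.trans (Dvd.intro_left _ rfl)
  have hlt : ∀ s t : ℕ, s < t → t ≤ n → ∑ j ∈ range (N * Q0),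
      g j * Real.cos (2 * Real.pi * ((s : ℝ) - t) * ((j : ℝ) - c) / (N * Q0 : ℕ)) = 0 := by
    intro s t hst ht
    rw [← orth hM hqd hp (t := t - s) (by omega) (by
      calc (t - s) * q ≤ n * q := Nat.mul_le_mul_right _ (by omega)
        _ < N * Q0 := hn) (c : ℝ)]
    refine sum_congr rfl fun j _ => ?_
    rw [Nat.cast_sub hst.le, ← Real.cos_neg]
    congr 2
    ring
  have hgt : ∀ s t : ℕ, t < s → s ≤ n → ∑ j ∈ range (N * Q0),
      g j * Real.cos (2 * Real.pi * ((s : ℝ) - t) * ((j : ℝ) - c) / (N * Q0 : ℕ)) = 0 := by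
    intro s t hst hs
    rw [← hlt t s hst hs]
    refine sum_congr rfl fun j _ => ?_
    rw [← Real.cos_neg]
    congr 2
    ring
  have e1 : ∑ j ∈ range (N * Q0), (∑ s ∈ range (n + 1), ∑ t ∈ range (n + 1),
      a s t * Real.cos (2 * Real.pi * ((s : ℝ) - t) * ((j : ℝ) - c) / (N * Q0 : ℕ))) * g j =
      ∑ s ∈ range (n + 1), ∑ t ∈ range (n + 1), a s t * ∑ j ∈ range (N * Q0),
        g j * Real.cos (2 * Real.pi * ((s : ℝ) - t) * ((j : ℝ) - c) / (N * Q0 : ℕ)) := by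
    simp only [sum_mul, mul_sum]
    rw [sum_comm]
    refine sum_congr rfl fun s _ => ?_
    rw [sum_comm]
    refine sum_congr rfl fun t _ => ?_
    refine sum_congr rfl fun j _ => ?_
    ring
  rw [e1, sum_mul]
  refine sum_congr rfl fun s hs => ?_
  rw [mem_range] at hs
  rw [sum_eq_single s]
  · congr 1
    refine sum_congr rfl fun j _ => ?_
    rw [sub_self, mul_zero, zero_mul, zero_div, Real.cos_zero, mul_one]
  · intro t ht hts
    rw [mem_range] at ht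
    rcases lt_or_gt_of_ne hts with h | h
    · rw [hgt s t h (by omega), mul_zero]
    · rw [hlt s t h (by omega), mul_zero]
  · intro h
    exact absurd (mem_range.2 hs) h

theorem wt_av {Q0 N J R c : ℕ} (hQ : 0 < Q0) (hN : 0 < N) (hJ : 1 ≤ J) (hR : J * R ≤ N)
    {f : ℕ → ℝ} (hf : PB Q0 R f) :
    ∑ j ∈ range (N * Q0), wt (N * Q0) Q0 J c j * f j =
      (∑ j ∈ range (N * Q0), wt (N * Q0) Q0 J c j) * av Q0 f := by
  have hM : 0 < N * Q0 := Nat.mul_pos hN hQ
  obtain ⟨A, hA⟩ : ∃ A : ℝ, ∀ q : ℕ, q ∣ Q0 → J * q ≤ N → ∀ g : ℕ → ℝ, Periodic g q →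
      ∑ j ∈ range (N * Q0), wt (N * Q0) Q0 J c j * g j = A * ∑ j ∈ range (N * Q0), g j := by
    refine ⟨∑ s ∈ range (J * (Q0 - 1) + 1),
      (((∑ i ∈ range Q0, (Polynomial.X : Polynomial ℝ) ^ i) ^ J).coeff s *
        ((∑ i ∈ range Q0, (Polynomial.X : Polynomial ℝ) ^ i) ^ J).coeff s /
        (Q0 : ℝ) ^ (2 * J)), fun q hq hJq g hp => ?_⟩
    simp only [kav_wt]
    refine kav_orth (n := J * (Q0 - 1)) hQ hN hq ?_ hp (fun s t =>
      ((∑ i ∈ range Q0, (Polynomial.X : Polynomial ℝ) ^ i) ^ J).coeff s *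
        ((∑ i ∈ range Q0, (Polynomial.X : Polynomial ℝ) ^ i) ^ J).coeff t /
        (Q0 : ℝ) ^ (2 * J))
    calc J * (Q0 - 1) * q = (J * q) * (Q0 - 1) := by ring
      _ ≤ N * (Q0 - 1) := Nat.mul_le_mul_right _ hJq
      _ < N * Q0 := Nat.mul_lt_mul_of_pos_left (by omega) hN
  have hf2 : 1 ≤ R ∧ ∑ j ∈ range (N * Q0), wt (N * Q0) Q0 J c j * f j =
      A * ∑ j ∈ range (N * Q0), f j := by
    clear hM
    induction hf with
    | @base q g hq hqR hp =>
      refine ⟨le_trans (Nat.succ_le_of_lt (Nat.pos_of_dvd_of_pos hq hQ)) hqR, ?_⟩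
      exact hA q hq ((Nat.mul_le_mul_left _ hqR).trans hR) g hp
    | add _ _ ih1 ih2 =>
      refine ⟨ih1.1, ?_⟩
      simp only [mul_add, sum_add_distrib]
      rw [ih1.2, ih2.2]
  obtain ⟨hR1, hf3⟩ := hf2
  have h1 := hA 1 (one_dvd _) ((Nat.mul_le_mul_left _ hR1).trans hR) (fun _ => 1) (fun _ => rfl)
  simp only [mul_one, sum_const, card_range, nsmul_eq_mul] at h1
  have h2 : ∑ j ∈ range (N * Q0), f j = (N * Q0 : ℕ) * av Q0 f := by
    rw [← av_of_dvd hf.periodic (Dvd.intro_left N rfl) hM]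
    unfold av
    rw [mul_div_cancel₀]
    exact_mod_cast hM.ne'
  rw [hf3, h1, h2]
  ring

end LCG
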