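import Pool.Agent.LCG.Defs

set_option autoImplicit false

namespace LCG

open Finset Function ArithmeticFunction LCB LCD LCE

private theorem kta_exp (M c j s : ℕ) :
    Complex.exp (2 * Real.pi * Complex.I * ((s : ℂ) * ((j : ℂ) - c) / M)) =
      ((Real.cos (2 * Real.pi * s * ((j : ℝ) - c) / M) : ℝ) : ℂ) +
        ((Real.sin (2 * Real.pi * s * ((j : ℝ) - c) / M) : ℝ) : ℂ) * Complex.I := by
  have : (2 * Real.pi * Complex.I * ((s : ℂ) * ((j : ℂ) - c) / M) : ℂ) =
      ((2 * Real.pi * s * ((j : ℝ) - c) / M : ℝ) : ℂ) * Complex.I := by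
    push_cast
    ring
  rw [this, Complex.exp_mul_I, Complex.ofReal_cos, Complex.ofReal_sin]

private theorem kta_sq (M H c j : ℕ) : ‖dk M H c j‖ ^ 2 = ker M H ((j : ℝ) - c) := by
  have h1 : dk M H c j = ((∑ s ∈ range H, Real.cos (2 * Real.pi * s * ((j : ℝ) - c) / M) : ℝ) : ℂ) +
      ((∑ s ∈ range H, Real.sin (2 * Real.pi * s * ((j : ℝ) - c) / M) : ℝ) : ℂ) * Complex.I := by
    unfold dk
    rw [Complex.ofReal_sum, Complex.ofReal_sum, sum_mul, ← sum_add_distrib]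
    exact sum_congr rfl fun s _ => kta_exp M c j s
  rw [h1, Complex.sq_norm, Complex.normSq_add_mul_I, sq, sq, sum_mul_sum, sum_mul_sum,
    ← sum_add_distrib]
  unfold ker
  refine sum_congr rfl fun s _ => ?_
  rw [← sum_add_distrib]
  refine sum_congr rfl fun t _ => ?_
  rw [← Real.cos_sub]
  congr 1
  ring

private theorem kta_tot {M H : ℕ} (hM : 0 < M) (hH : H ≤ M) (c : ℕ) :
    ∑ j ∈ range M, ‖dk M H c j‖ ^ 2 = M * H := by
  have hlt : ∀ s t : ℕ, s < t → t < H → ∑ j ∈ range M,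
      Real.cos (2 * Real.pi * ((s : ℝ) - t) * ((j : ℝ) - c) / M) = 0 := by
    intro s t hst ht
    have h := orth (Q := M) (q := 1) (t := t - s) (g := fun _ => 1) hM (one_dvd M) (fun _ => rfl)
      (by omega) (by omega) (c : ℝ)
    rw [← h]
    refine sum_congr rfl fun j _ => ?_
    rw [one_mul, Nat.cast_sub hst.le, ← Real.cos_neg]
    congr 1
    ring
  have hgt : ∀ s t : ℕ, t < s → s < H → ∑ j ∈ range M,
      Real.cos (2 * Real.pi * ((s : ℝ) - t) * ((j : ℝ) - c) / M) = 0 := by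
    intro s t hst ht
    rw [← hlt t s hst ht]
    refine sum_congr rfl fun j _ => ?_
    rw [← Real.cos_neg]
    congr 1
    ring
  have e1 : ∑ j ∈ range M, ‖dk M H c j‖ ^ 2 = ∑ s ∈ range H, ∑ t ∈ range H, ∑ j ∈ range M,
      Real.cos (2 * Real.pi * ((s : ℝ) - t) * ((j : ℝ) - c) / M) := by
    simp only [kta_sq]
    unfold ker
    rw [sum_comm]
    refine sum_congr rfl fun s _ => ?_
    rw [sum_comm]
  rw [e1]
  calc ∑ s ∈ range H, ∑ t ∈ range H, ∑ j ∈ range M,
        Real.cos (2 * Real.pi * ((s : ℝ) - t) * ((j : ℝ) - c) / M) =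
      ∑ s ∈ range H, (M : ℝ) := by
        refine sum_congr rfl fun s hs => ?_
        rw [sum_eq_single s]
        · have : ∀ j ∈ range M, Real.cos (2 * Real.pi * ((s : ℝ) - s) * ((j : ℝ) - c) / M) = 1 := by
            intro j _
            rw [sub_self, mul_zero, zero_mul, zero_div, Real.cos_zero]
          rw [sum_congr rfl this, sum_const, card_range, nsmul_eq_mul, mul_one]
        · intro t ht hts
          rcases lt_or_gt_of_ne hts with h | h
          · exact hgt s t h (mem_range.1 hs)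
          · exact hlt s t h (mem_range.1 ht)
        · intro h
          exact absurd hs h
    _ = (M : ℝ) * H := by
        rw [sum_const, card_range, nsmul_eq_mul]
        ring

private theorem kta_geom {M H c j u : ℕ} (hM : 0 < M) (hu : 0 < u)
    (h1 : (u : ℝ) / M ≤ |((j : ℝ) - c) / M|) (h2 : |((j : ℝ) - c) / M| ≤ 1 - (u : ℝ) / M) :
    ‖dk M H c j‖ ≤ M / (2 * u) := by
  have hMr : (0 : ℝ) < M := by exact_mod_cast hM
  have hur : (0 : ℝ) < u := by exact_mod_cast hu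
  obtain ⟨t, ht⟩ : ∃ t : ℝ, t = ((j : ℝ) - c) / M := ⟨_, rfl⟩
  rw [← ht] at h1 h2
  obtain ⟨z, hz⟩ : ∃ z : ℂ, z = Complex.exp (((2 * Real.pi * t : ℝ) : ℂ) * Complex.I) := ⟨_, rfl⟩
  have hzn : ‖z‖ = 1 := by rw [hz, Complex.norm_exp_ofReal_mul_I]
  have hdk : dk M H c j = ∑ s ∈ range H, z ^ s := by
    unfold dk
    refine sum_congr rfl fun s _ => ?_
    rw [hz, ← Complex.exp_nat_mul]
    congr 1
    rw [ht]
    push_cast
    ring
  have hg : dk M H c j * (z - 1) = z ^ H - 1 := by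
    rw [hdk]
    exact geom_sum_mul z H
  have hup : ‖dk M H c j‖ * ‖z - 1‖ ≤ 2 := by
    rw [← norm_mul, hg]
    refine (norm_sub_le _ _).trans ?_
    rw [norm_pow, hzn, one_pow, norm_one]
    norm_num
  -- lower bound for the sine
  have hsin : 2 * ((u : ℝ) / M) ≤ |Real.sin (Real.pi * t)| := by
    have h3 : |Real.sin (Real.pi * t)| = |Real.sin (Real.pi * |t|)| := by
      rcases abs_cases t with ⟨h, _⟩ | ⟨h, _⟩
      · rw [h]
      · rw [h, mul_neg, Real.sin_neg, abs_neg]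
    rw [h3]
    refine le_trans ?_ (le_abs_self _)
    have h0 := abs_nonneg t
    rcases le_total |t| (1 / 2) with h4 | h4
    · have h5 := Real.mul_le_sin (x := Real.pi * |t|) (by positivity)
        (by nlinarith [Real.pi_pos])
      have h6 : 2 / Real.pi * (Real.pi * |t|) = 2 * |t| := by
        field_simp
      rw [h6] at h5
      linarith
    · have hu0 : 0 ≤ (u : ℝ) / M := by positivity
      have h5 := Real.mul_le_sin (x := Real.pi * (1 - |t|))
        (mul_nonneg Real.pi_pos.le (by linarith)) (by nlinarith [Real.pi_pos])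
      have h6 : 2 / Real.pi * (Real.pi * (1 - |t|)) = 2 * (1 - |t|) := by
        field_simp
      have h7 : Real.sin (Real.pi * (1 - |t|)) = Real.sin (Real.pi * |t|) := by
        rw [← Real.sin_pi_sub]
        congr 1
        ring
      rw [h6, h7] at h5
      linarith
  have hz1 : 2 * |Real.sin (Real.pi * t)| ≤ ‖z - 1‖ := by
    refine abs_le_of_sq_le_sq' ?_ (norm_nonneg _) |>.2
    have h3 : z - 1 = ((Real.cos (2 * Real.pi * t) - 1 : ℝ) : ℂ) +
        ((Real.sin (2 * Real.pi * t) : ℝ) : ℂ) * Complex.I := by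
      rw [hz, Complex.exp_mul_I, ← Complex.ofReal_cos, ← Complex.ofReal_sin]
      push_cast
      ring
    rw [h3, Complex.sq_norm, Complex.normSq_add_mul_I, mul_pow, sq_abs]
    have h4 : 2 * Real.pi * t = 2 * (Real.pi * t) := by ring
    rw [h4, Real.cos_two_mul, Real.sin_two_mul]
    have h5 := Real.sin_sq_add_cos_sq (Real.pi * t)
    have h6 : Real.cos (Real.pi * t) ^ 2 = 1 - Real.sin (Real.pi * t) ^ 2 := by linarith
    apply le_of_eq
    calc 2 ^ 2 * Real.sin (Real.pi * t) ^ 2 = 4 * (1 - Real.cos (Real.pi * t) ^ 2) := by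
          rw [h6]; ring
      _ = (2 * Real.cos (Real.pi * t) ^ 2 - 1 - 1) ^ 2 +
          (2 * Real.sin (Real.pi * t) * Real.cos (Real.pi * t)) ^ 2 := by
          have h7 : (2 * Real.sin (Real.pi * t) * Real.cos (Real.pi * t)) ^ 2 =
              4 * (1 - Real.cos (Real.pi * t) ^ 2) * Real.cos (Real.pi * t) ^ 2 := by
            have : Real.sin (Real.pi * t) ^ 2 = 1 - Real.cos (Real.pi * t) ^ 2 := by linarith
            rw [← this]; ring
          rw [h7]; ring
  have h8 : ‖dk M H c j‖ * (4 * ((u : ℝ) / M)) ≤ 2 := by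
    refine le_trans (mul_le_mul_of_nonneg_left ?_ (norm_nonneg _)) hup
    linarith
  rw [le_div_iff₀ (by positivity)]
  have h9 : ‖dk M H c j‖ * (4 * ((u : ℝ) / M)) = 2 * (‖dk M H c j‖ * (2 * u)) / M := by ring
  rw [h9, div_le_iff₀ hMr] at h8
  linarith

/-- KTA -/
theorem wt_tail {Q0 N J c u : ℕ} (hQ : 0 < Q0) (hN : 0 < N) (hJ : 1 ≤ J) (hu : 0 < u)
    (huc : u ≤ c) (hcM : c + u ≤ N * Q0) :
    ∑ j ∈ (range (N * Q0)).filter (fun j => ¬ (c < j + u ∧ j < c + u)), wt (N * Q0) Q0 J c j ≤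
      N * ((N : ℝ) / (2 * u)) ^ (2 * (J - 1)) := by
  have hM : 0 < N * Q0 := Nat.mul_pos hN hQ
  have hMr : (0 : ℝ) < ((N * Q0 : ℕ) : ℝ) := by exact_mod_cast hM
  have hQr : (0 : ℝ) < Q0 := by exact_mod_cast hQ
  have hNr : (0 : ℝ) < N := by exact_mod_cast hN
  have hur : (0 : ℝ) < u := by exact_mod_cast hu
  have h1 : ∀ j ∈ (range (N * Q0)).filter (fun j => ¬ (c < j + u ∧ j < c + u)),
      wt (N * Q0) Q0 J c j ≤
        ((N : ℝ) / (2 * u)) ^ (2 * (J - 1)) * (‖dk (N * Q0) Q0 c j‖ ^ 2 / (Q0 : ℝ) ^ 2) := by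
    intro j hj
    rw [mem_filter, mem_range] at hj
    obtain ⟨hj1, hj2⟩ := hj
    have hj3 : j + u ≤ c ∨ c + u ≤ j := by omega
    have hb : (u : ℝ) / ((N * Q0 : ℕ) : ℝ) ≤ |((j : ℝ) - c) / ((N * Q0 : ℕ) : ℝ)| ∧
        |((j : ℝ) - c) / ((N * Q0 : ℕ) : ℝ)| ≤ 1 - (u : ℝ) / ((N * Q0 : ℕ) : ℝ) := by
      rw [abs_div, abs_of_pos hMr]
      have e : 1 - (u : ℝ) / ((N * Q0 : ℕ) : ℝ) = (((N * Q0 : ℕ) : ℝ) - u) / ((N * Q0 : ℕ) : ℝ) := by
        field_simp
      rw [e]
      have hcM' : (c : ℝ) + u ≤ ((N * Q0 : ℕ) : ℝ) := by exact_mod_cast hcM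
      have huc' : (u : ℝ) ≤ c := by exact_mod_cast huc
      have hj0 : (0 : ℝ) ≤ j := Nat.cast_nonneg j
      have hj1' : (j : ℝ) < ((N * Q0 : ℕ) : ℝ) := by exact_mod_cast hj1
      rcases hj3 with h | h
      · have h' : (j : ℝ) + u ≤ c := by exact_mod_cast h
        have e2 : |(j : ℝ) - c| = c - j := by rw [abs_of_nonpos (by linarith)]; ring
        rw [e2]
        exact ⟨div_le_div_of_nonneg_right (by linarith) hMr.le,
          div_le_div_of_nonneg_right (by linarith) hMr.le⟩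
      · have h' : (c : ℝ) + u ≤ j := by exact_mod_cast h
        have e2 : |(j : ℝ) - c| = j - c := abs_of_nonneg (by linarith)
        rw [e2]
        exact ⟨div_le_div_of_nonneg_right (by linarith) hMr.le,
          div_le_div_of_nonneg_right (by linarith) hMr.le⟩
    have h2 := kta_geom (H := Q0) hM hu hb.1 hb.2
    have h3 : ‖dk (N * Q0) Q0 c j‖ / Q0 ≤ (N : ℝ) / (2 * u) := by
      rw [div_le_iff₀ hQr]
      refine h2.trans (le_of_eq ?_)
      push_cast
      ring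
    unfold wt
    have e3 : 2 * J = 2 * (J - 1) + 2 := by omega
    rw [e3, pow_add, div_pow _ _ 2]
    refine mul_le_mul_of_nonneg_right ?_ (by positivity)
    exact pow_le_pow_left₀ (by positivity) h3 _
  refine (sum_le_sum h1).trans ?_
  rw [← mul_sum]
  have h4 : ∑ j ∈ (range (N * Q0)).filter (fun j => ¬ (c < j + u ∧ j < c + u)),
      ‖dk (N * Q0) Q0 c j‖ ^ 2 / (Q0 : ℝ) ^ 2 ≤ N := by
    calc ∑ j ∈ (range (N * Q0)).filter (fun j => ¬ (c < j + u ∧ j < c + u)),
          ‖dk (N * Q0) Q0 c j‖ ^ 2 / (Q0 : ℝ) ^ 2 ≤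
        ∑ j ∈ range (N * Q0), ‖dk (N * Q0) Q0 c j‖ ^ 2 / (Q0 : ℝ) ^ 2 := by
          refine sum_le_sum_of_subset_of_nonneg (filter_subset _ _) fun j _ _ => by positivity
      _ = (∑ j ∈ range (N * Q0), ‖dk (N * Q0) Q0 c j‖ ^ 2) / (Q0 : ℝ) ^ 2 := by
          rw [sum_div]
      _ = (((N * Q0 : ℕ) : ℝ) * Q0) / (Q0 : ℝ) ^ 2 := by
          rw [kta_tot hM (Nat.le_mul_of_pos_left Q0 hN) c]
      _ = N := by
          push_cast
          field_simp
      _ ≤ N := le_rfl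
  calc ((N : ℝ) / (2 * u)) ^ (2 * (J - 1)) *
        ∑ j ∈ (range (N * Q0)).filter (fun j => ¬ (c < j + u ∧ j < c + u)),
          ‖dk (N * Q0) Q0 c j‖ ^ 2 / (Q0 : ℝ) ^ 2
      ≤ ((N : ℝ) / (2 * u)) ^ (2 * (J - 1)) * N := mul_le_mul_of_nonneg_left h4 (by positivity)
    _ = N * ((N : ℝ) / (2 * u)) ^ (2 * (J - 1)) := mul_comm _ _

end LCG
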