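import Pool.Agent.LCG.Defs

/-!
# LCG, row KTO: the total weight is at least a constant times `N`
-/

set_option autoImplicit false

namespace LCG

open Finset Function ArithmeticFunction LCB LCD LCE

private theorem kto_norm (M H c j : ℕ) : ‖dk M H c j‖ ^ 2 = ker M H ((j : ℝ) - c) := by
  have hterm : ∀ s : ℕ, Complex.exp (2 * Real.pi * Complex.I * ((s : ℂ) * ((j : ℂ) - c) / M)) =
      Complex.exp (((2 * Real.pi * (s : ℝ) * ((j : ℝ) - c) / M : ℝ) : ℂ) * Complex.I) := by
    intro s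
    congr 1
    push_cast
    ring
  have hre : (dk M H c j).re =
      ∑ s ∈ range H, Real.cos (2 * Real.pi * (s : ℝ) * ((j : ℝ) - c) / M) := by
    unfold dk
    rw [Complex.re_sum]
    refine sum_congr rfl fun s _ => ?_
    rw [hterm, Complex.exp_ofReal_mul_I_re]
  have him : (dk M H c j).im =
      ∑ s ∈ range H, Real.sin (2 * Real.pi * (s : ℝ) * ((j : ℝ) - c) / M) := by
    unfold dk
    rw [Complex.im_sum]
    refine sum_congr rfl fun s _ => ?_
    rw [hterm, Complex.exp_ofReal_mul_I_im]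
  rw [← Complex.normSq_eq_norm_sq, Complex.normSq_apply, hre, him, sum_mul_sum, sum_mul_sum,
    ← sum_add_distrib]
  unfold ker
  refine sum_congr rfl fun s _ => ?_
  rw [← sum_add_distrib]
  refine sum_congr rfl fun t _ => ?_
  rw [← Real.cos_sub]
  congr 1
  ring

theorem wt_tot {Q0 N J c : ℕ} (hQ : 0 < Q0) (hN : 0 < N) (hc : N ≤ c) (hcM : 2 * c ≤ N * Q0) :
    (N : ℝ) / 4 * (1 / 2) ^ J ≤ ∑ j ∈ range (N * Q0), wt (N * Q0) Q0 J c j := by
  have hQ0 : (0 : ℝ) < Q0 := by exact_mod_cast hQ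
  have hlow : ∀ i ∈ range (N / 4 + 1), (1 / 2 : ℝ) ^ J ≤ wt (N * Q0) Q0 J c (c + i) := by
    intro i hi
    have hi4 : 4 * i ≤ N := by
      rw [mem_range] at hi
      omega
    have hi4' : 4 * (i : ℝ) ≤ N := by exact_mod_cast hi4
    have h1 := ker_ge (Q := N * Q0) (H := Q0) (Nat.mul_pos hN hQ)
      (y := ((c + i : ℕ) : ℝ) - c) (by
        have e : (((c + i : ℕ) : ℝ) - c) = i := by
          push_cast
          ring
        rw [e, abs_of_nonneg (Nat.cast_nonneg i)]
        push_cast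
        nlinarith)
    rw [← kto_norm] at h1
    unfold wt
    rw [pow_mul]
    refine pow_le_pow_left₀ (by norm_num) ?_ J
    rw [div_pow, div_le_div_iff₀ (by norm_num) (by positivity)]
    linarith
  have hsub : (range (N / 4 + 1)).image (fun i => c + i) ⊆ range (N * Q0) := by
    intro j hj
    rw [mem_image] at hj
    obtain ⟨i, hi, rfl⟩ := hj
    rw [mem_range] at hi ⊢
    have : N / 4 < N := Nat.div_lt_self hN (by norm_num)
    omega
  calc (N : ℝ) / 4 * (1 / 2) ^ J ≤ ((N / 4 + 1 : ℕ) : ℝ) * (1 / 2) ^ J := by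
        refine mul_le_mul_of_nonneg_right ?_ (by positivity)
        have h4 : N < 4 * (N / 4 + 1) := by omega
        have h4' : (N : ℝ) < 4 * ((N / 4 + 1 : ℕ) : ℝ) := by exact_mod_cast h4
        linarith
    _ = ∑ i ∈ range (N / 4 + 1), (1 / 2 : ℝ) ^ J := by rw [sum_const, card_range, nsmul_eq_mul]
    _ ≤ ∑ i ∈ range (N / 4 + 1), wt (N * Q0) Q0 J c (c + i) := sum_le_sum hlow
    _ = ∑ j ∈ (range (N / 4 + 1)).image (fun i => c + i), wt (N * Q0) Q0 J c j := by
        rw [sum_image (fun a _ b _ h => Nat.add_left_cancel h)]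
    _ ≤ _ := sum_le_sum_of_subset_of_nonneg hsub (fun j _ _ => wt_nonneg _ _ _ _ _)

end LCG
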