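import Pool.Agent.LCG.Defs

/-!
# Row PSQ: mean squares of the sum over prime powers
-/

set_option autoImplicit false

namespace LCG

open Finset Function ArithmeticFunction LCB LCD LCE

private theorem psq_PB {k Q : ℕ} (hk : 1 ≤ k) (hQd : ∀ d, 1 ≤ d → d ≤ k → d ∣ Q) (s : Finset ℕ)
    (hs : ∀ d ∈ s, 1 ≤ d ∧ d ≤ k) : PB Q k (fun n => ∑ d ∈ s, Λ d * X d k n) := by
  classical
  induction s using Finset.induction_on with
  | empty =>
    simp only [sum_empty]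
    exact PB.const' Q hk 0
  | insert a s ha ih =>
    have h1 : (fun n => ∑ d ∈ insert a s, Λ d * X d k n) =
        fun n => (Λ a * X a k n) + ∑ d ∈ s, Λ d * X d k n := by
      funext n
      rw [sum_insert ha]
    rw [h1]
    have h2 := hs a (mem_insert_self a s)
    exact PB.add (PB.base (hQd a h2.1 h2.2) h2.2 (per_comp (X_per a k) (fun x => Λ a * x)))
      (ih fun d hd => hs d (mem_insert_of_mem hd))

theorem Ph_PB {k Q : ℕ} (hk : 1 ≤ k) (hQd : ∀ d, 1 ≤ d → d ≤ k → d ∣ Q) : PB Q k (Ph k) :=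
  psq_PB hk hQd (Icc 1 k) fun d hd => mem_Icc.1 hd

private theorem psq_dec (k n : ℕ) :
    |Ph k n - Uf (pr 0 k) k n| ≤ Chebyshev.psi (k : ℝ) - Chebyshev.theta (k : ℝ) := by
  have e0 : Icc 1 k = Ioc 0 k := by ext d; simp only [mem_Icc, mem_Ioc]; omega
  have h4 : Ph k n = ∑ d ∈ (Ioc 0 k).filter Nat.Prime, Λ d * X d k n +
      ∑ d ∈ (Ioc 0 k).filter (fun d => ¬ d.Prime), Λ d * X d k n := by
    unfold Ph
    rw [e0, sum_filter_add_sum_filter_not]
  have h6 : ∑ d ∈ (Ioc 0 k).filter Nat.Prime, Λ d * X d k n = Uf (pr 0 k) k n := by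
    unfold Uf pr
    exact sum_congr rfl fun p hp => by rw [vonMangoldt_apply_prime (mem_filter.1 hp).2]
  rw [h4, h6, add_sub_cancel_left]
  refine (abs_sum_le_sum_abs _ _).trans ?_
  rw [Chebyshev.psi_sub_theta_eq_sum_not_prime, Nat.floor_natCast]
  refine sum_le_sum fun d _ => ?_
  have a1 := X_abs_le d k n
  have a2 := vonMangoldt_nonneg (n := d)
  rw [abs_mul, abs_of_nonneg a2]
  nlinarith

theorem Ph_sq : ∃ C : ℝ, 0 < C ∧ ∀ k : ℕ, 2 ≤ k → ∀ w N : ℕ, N ≤ k ^ 2 →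
    ∑ j ∈ range N, Ph k (w + j) ^ 2 ≤ C * k ^ 3 * Real.log k := by
  obtain ⟨C, hC⟩ := Chebyshev.psi_sub_theta_le_mul_sqrt
  refine ⟨16 + 16 * C ^ 2, by positivity, fun k hk w N hN => ?_⟩
  have hk1 : 1 ≤ k := by omega
  have hkr : (2 : ℝ) ≤ k := by exact_mod_cast hk
  have hQd : ∀ d, 1 ≤ d → d ≤ k → d ∣ k.factorial := fun d h1 h2 => Nat.dvd_factorial h1 h2
  have hQ : 0 < k.factorial := Nat.factorial_pos k
  have hPB : PB k.factorial (k * k) (fun n => Ph k n ^ 2) := by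
    have h1 := (Ph_PB hk1 hQd).mul (Ph_PB hk1 hQd)
    have h2 : (fun n => Ph k n ^ 2) = fun n => Ph k n * Ph k n := by
      funext n
      ring
    rw [h2]
    exact h1
  have hfe := fejer (N := k ^ 2) hQ (by positivity) (by nlinarith) hPB
    (fun n => sq_nonneg _) w
  have h1 : ∑ j ∈ range N, Ph k (w + j) ^ 2 ≤ ∑ j ∈ range (k ^ 2), Ph k (w + j) ^ 2 :=
    sum_le_sum_of_subset_of_nonneg (range_subset_range.2 hN) fun j _ _ => sq_nonneg _
  have hpt : ∀ n, Ph k n ^ 2 ≤ 2 * Uf (pr 0 k) k n ^ 2 + 2 * (C ^ 2 * k) := by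
    intro n
    have h2 := psq_dec k n
    have h3 := hC (k : ℝ)
    have h4 : |Ph k n - Uf (pr 0 k) k n| ≤ C * √(k : ℝ) := h2.trans h3
    have h5 : (Ph k n - Uf (pr 0 k) k n) ^ 2 ≤ C ^ 2 * k := by
      rw [← sq_abs]
      calc |Ph k n - Uf (pr 0 k) k n| ^ 2 ≤ (C * √(k : ℝ)) ^ 2 :=
            pow_le_pow_left₀ (abs_nonneg _) h4 2
        _ = C ^ 2 * k := by rw [mul_pow, Real.sq_sqrt (Nat.cast_nonneg k)]
    nlinarith [sq_nonneg (Ph k n - 2 * Uf (pr 0 k) k n)]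
  have hav : av k.factorial (fun n => Ph k n ^ 2) ≤
      2 * (2 * (k : ℝ) * Real.log k) + 2 * (C ^ 2 * k) := by
    have h2 : av k.factorial (fun n => Ph k n ^ 2) ≤
        av k.factorial (fun n => 2 * Uf (pr 0 k) k n ^ 2 + 2 * (C ^ 2 * k)) :=
      av_mono _ hpt
    have h3 : av k.factorial (fun n => 2 * Uf (pr 0 k) k n ^ 2 + 2 * (C ^ 2 * k)) =
        2 * av k.factorial (fun n => Uf (pr 0 k) k n ^ 2) + 2 * (C ^ 2 * k) := by
      rw [av_add, av_const hQ]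
      unfold av
      rw [← mul_sum, mul_div_assoc]
    have h4 : av k.factorial (fun n => Uf (pr 0 k) k n ^ 2) ≤ vS (pr 0 k) :=
      Uf_sq_le hQ (fun p hp => (mem_pr.1 hp).2)
        (fun p hp => hQd p (mem_pr.1 hp).2.one_lt.le (mem_pr.1 hp).1.2) k
    have h5 : vS (pr 0 k) ≤ 2 * (k : ℝ) * Real.log k := vS_pr_le le_rfl hk1
    linarith
  have hlog : (1 : ℝ) / 2 ≤ Real.log k := by
    have h2 : Real.log 2 ≤ Real.log k := Real.log_le_log (by norm_num) hkr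
    have h3 := Real.log_two_gt_d9
    linarith
  have hfin : av k.factorial (fun n => Ph k n ^ 2) ≤ (4 + 4 * C ^ 2) * (k * Real.log k) := by
    refine hav.trans ?_
    have h2 : (k : ℝ) ≤ 2 * (k * Real.log k) := by nlinarith
    have h3 : C ^ 2 * k ≤ C ^ 2 * (2 * (k * Real.log k)) :=
      mul_le_mul_of_nonneg_left h2 (sq_nonneg C)
    linarith
  calc ∑ j ∈ range N, Ph k (w + j) ^ 2 ≤ ∑ j ∈ range (k ^ 2), Ph k (w + j) ^ 2 := h1
    _ ≤ 4 * ((k ^ 2 : ℕ) : ℝ) * av k.factorial (fun n => Ph k n ^ 2) := hfe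
    _ ≤ 4 * ((k ^ 2 : ℕ) : ℝ) * ((4 + 4 * C ^ 2) * (k * Real.log k)) :=
        mul_le_mul_of_nonneg_left hfin (by positivity)
    _ = (16 + 16 * C ^ 2) * k ^ 3 * Real.log k := by
        push_cast
        ring

end LCG
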