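import Pool.Agent.LCG.Defs
import Pool.Agent.LCD.Sca

set_option autoImplicit false

namespace LCG

open Finset Function ArithmeticFunction LCB LCD LCE

private theorem rev_fact {k n : ℕ} (hn : 2 * k ≤ n) (hn0 : 1 ≤ n) :
    Real.log ((n + k).factorial : ℝ) + Real.log ((n - k).factorial : ℝ)
      - 2 * Real.log (n.factorial : ℝ) ≤ 4 * (k : ℝ) ^ 2 / n := by
  obtain ⟨m, rfl⟩ : ∃ m, n = m + k := ⟨n - k, by omega⟩
  have e : m + k - k = m := by omega
  rw [e]
  have h1 := log_fact_up (m + k) k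
  have h2 := log_fact_lo m k
  have hkm : k ≤ m := by omega
  have hkmR : (k : ℝ) ≤ m := by exact_mod_cast hkm
  have hk0 : (0 : ℝ) ≤ k := Nat.cast_nonneg k
  have hm1 : (1 : ℝ) ≤ m := by
    have : 1 ≤ m := by omega
    exact_mod_cast this
  have hm0 : (0 : ℝ) < (m : ℝ) + 1 := by positivity
  have h4 : (0 : ℝ) < (m : ℝ) + k + k := by linarith
  have h3 : Real.log ((m : ℝ) + k + k) - Real.log ((m : ℝ) + 1) ≤ (2 * k : ℝ) / (m + 1) := by
    rw [← Real.log_div h4.ne' hm0.ne']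
    refine (Real.log_le_sub_one_of_pos (div_pos h4 hm0)).trans ?_
    rw [div_sub_one hm0.ne']
    exact div_le_div_of_nonneg_right (by linarith) hm0.le
  have h5 : (k : ℝ) * (Real.log ((m : ℝ) + k + k) - Real.log ((m : ℝ) + 1)) ≤
      4 * (k : ℝ) ^ 2 / ((m + k : ℕ) : ℝ) := by
    have hmk : (0 : ℝ) < ((m + k : ℕ) : ℝ) := by
      push_cast
      linarith
    calc (k : ℝ) * (Real.log ((m : ℝ) + k + k) - Real.log ((m : ℝ) + 1))
        ≤ k * ((2 * k : ℝ) / (m + 1)) := mul_le_mul_of_nonneg_left h3 hk0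
      _ ≤ 4 * (k : ℝ) ^ 2 / ((m + k : ℕ) : ℝ) := by
          rw [← mul_div_assoc, div_le_div_iff₀ hm0 hmk]
          push_cast
          have h6 : (m : ℝ) + k ≤ 2 * (m + 1) := by linarith
          have h7 : (0 : ℝ) ≤ 2 * (k : ℝ) ^ 2 := by positivity
          nlinarith [mul_le_mul_of_nonneg_left h6 h7]
  push_cast at h1 h5 ⊢
  nlinarith

/-! ROW REV (file Rev.lean) -/
theorem rev_of {k n : ℕ} (hk : 1 ≤ k) (hn : 2 * k ≤ n)
    (h : Ph k n < -(4 * (k : ℝ) ^ 2 / n)) :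
    (Icc (n + 1) (n + k)).lcm id < (Icc (n - k + 1) n).lcm id := by
  have h1 := block_identity hk (show k ≤ n by omega)
  have h2 := rev_fact hn (by omega)
  have hPh : ∑ d ∈ Icc 1 k, Λ d * X d k n = Ph k n := rfl
  rw [hPh] at h1
  have h3 : Real.log (((Icc (n + 1) (n + k)).lcm id : ℕ) : ℝ) <
      Real.log (((Icc (n - k + 1) n).lcm id : ℕ) : ℝ) := by linarith
  have hpos : (0 : ℝ) < (((Icc (n - k + 1) n).lcm id : ℕ) : ℝ) := by
    have : (Icc (n - k + 1) n).lcm id ≠ 0 := by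
      rw [Ne, Finset.lcm_eq_zero_iff]
      rintro ⟨y, hy, hy0⟩
      rw [mem_Icc] at hy
      simp only [id] at hy0
      omega
    exact_mod_cast Nat.pos_of_ne_zero this
  by_contra hcon
  have h4 : (((Icc (n - k + 1) n).lcm id : ℕ) : ℝ) ≤ (((Icc (n + 1) (n + k)).lcm id : ℕ) : ℝ) := by
    exact_mod_cast not_lt.1 hcon
  exact absurd (Real.log_le_log hpos h4) (not_le.2 h3)

end LCG
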