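import Pool.Agent.LCG.Defs

set_option autoImplicit false

namespace LCG

open Finset Function ArithmeticFunction LCB LCD LCE

/-! ROW ZER (file Zer.lean): mean zero, trivial bounds, GG in PB -/
theorem av_Ph {k Q : ℕ} (hQ : 0 < Q) (hQd : ∀ d, 1 ≤ d → d ≤ k → d ∣ Q) : av Q (Ph k) = 0 := by
  have _ := hQ
  refine av_odd fun n hn => ?_
  unfold Ph
  rw [← sum_neg_distrib]
  refine sum_congr rfl fun d hd => ?_
  rw [mem_Icc] at hd
  rw [X_odd k (hQd d hd.1 hd.2) hn]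
  ring

private theorem zer_X_abs (d k n : ℕ) : |X d k n| ≤ 1 := by
  unfold X
  split_ifs <;> norm_num

theorem Ph_abs (k n : ℕ) : |Ph k n| ≤ 6 * k := by
  unfold Ph
  refine (abs_sum_le_sum_abs _ _).trans ?_
  have h1 : ∑ d ∈ Icc 1 k, |Λ d * X d k n| ≤ ∑ d ∈ Icc 1 k, Λ d := by
    refine sum_le_sum fun d _ => ?_
    rw [abs_mul, abs_of_nonneg vonMangoldt_nonneg]
    calc Λ d * |X d k n| ≤ Λ d * 1 :=
          mul_le_mul_of_nonneg_left (zer_X_abs d k n) vonMangoldt_nonneg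
      _ = Λ d := mul_one _
  refine h1.trans ?_
  have h2 := Chebyshev.psi_le_const_mul_self (x := (k : ℝ)) (Nat.cast_nonneg k)
  unfold Chebyshev.psi at h2
  rw [Nat.floor_natCast] at h2
  have h3 : Icc 1 k = Ioc 0 k := rfl
  rw [h3]
  have h4 : Real.log 4 ≤ 2 := by
    have h5 : Real.log 4 = 2 * Real.log 2 := by
      rw [show (4 : ℝ) = 2 ^ 2 by norm_num, Real.log_pow]
      norm_num
    rw [h5]
    have := Real.log_two_lt_d9
    linarith
  have hk : (0 : ℝ) ≤ k := Nat.cast_nonneg k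
  nlinarith

theorem GG_abs (a b n : ℕ) : |GG a b n| ≤ b := by
  unfold GG
  refine (abs_sum_le_sum_abs _ _).trans ?_
  calc ∑ m ∈ Ioc a b, |sn m n| ≤ ∑ m ∈ Ioc a b, (1 : ℝ) :=
        sum_le_sum fun m _ => Real.abs_sin_le_one _
    _ = ((b - a : ℕ) : ℝ) := by
        rw [sum_const, Nat.card_Ioc, nsmul_eq_mul, mul_one]
    _ ≤ b := by exact_mod_cast Nat.sub_le b a

private theorem zer_sn_per {m : ℕ} (hm : 0 < m) : Periodic (sn m) m := by
  intro n
  unfold sn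
  have hm' : (m : ℝ) ≠ 0 := by exact_mod_cast hm.ne'
  have h1 : 2 * Real.pi * ((((n + m : ℕ) : ℝ) + 1 / 2) / m) =
      2 * Real.pi * (((n : ℝ) + 1 / 2) / m) + 2 * Real.pi := by
    push_cast
    field_simp
    ring
  rw [h1, Real.sin_add_two_pi]

theorem GG_PB {a b Q : ℕ} (hb : 1 ≤ b) (hQd : ∀ d, 1 ≤ d → d ≤ b → d ∣ Q) : PB Q b (GG a b) := by
  unfold GG
  refine PB.sum hb fun m hm => ?_
  rw [mem_Ioc] at hm
  exact PB.base (hQd m (by omega) hm.2) hm.2 (zer_sn_per (by omega))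

end LCG
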