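import Pool.Agent.LCG.Cor
import Pool.Agent.LCG.Avk
import Pool.Agent.LCG.Che
import Pool.Agent.LCG.Kav
import Pool.Agent.LCG.Kto
import Pool.Agent.LCG.Kta
import Pool.Agent.LCG.Gle
import Pool.Agent.LCG.Psq
import Pool.Agent.LCG.Rev
import Pool.Agent.LCG.Zer

/-!
# LCG: the core inequality
-/

set_option autoImplicit false

namespace LCG

open Finset Function ArithmeticFunction LCB LCD LCE

theorem neg_split {w P B : ℝ} (hw0 : 0 ≤ w) (hw1 : w ≤ 1) (hB : 0 ≤ B) :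
    w * ((|P| - P) / 2) ≤ (if P < -B then |P| else 0) + B * w := by
  have h3 : 0 ≤ (|P| - P) / 2 := by
    have := le_abs_self P
    linarith
  have h5 : 0 ≤ B * w := mul_nonneg hB hw0
  split_ifs with h
  · have h2 : (|P| - P) / 2 ≤ |P| := by
      have := neg_abs_le P
      linarith
    have h4 : w * ((|P| - P) / 2) ≤ 1 * |P| := mul_le_mul hw1 h2 h3 (by norm_num)
    linarith
  · push Not at h
    have h2 : (|P| - P) / 2 ≤ B := by
      rcases abs_cases P with ⟨h3, _⟩ | ⟨h3, _⟩ <;> rw [h3] <;> linarith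
    have h3 := mul_le_mul_of_nonneg_left h2 hw0
    linarith

theorem out_le {Out : Finset ℕ} {w f : ℕ → ℝ} {τ b : ℝ} (hw0 : ∀ j, 0 ≤ w j) (hb : 0 ≤ b)
    (hf : ∀ j, |f j| ≤ b) (hτ : ∑ j ∈ Out, w j ≤ τ) : |∑ j ∈ Out, w j * f j| ≤ b * τ := by
  calc |∑ j ∈ Out, w j * f j| ≤ ∑ j ∈ Out, |w j * f j| := abs_sum_le_sum_abs _ _
    _ ≤ ∑ j ∈ Out, w j * b := by
        refine sum_le_sum fun j _ => ?_
        rw [abs_mul, abs_of_nonneg (hw0 j)]
        exact mul_le_mul_of_nonneg_left (hf j) (hw0 j)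
    _ = (∑ j ∈ Out, w j) * b := by rw [sum_mul]
    _ ≤ τ * b := by gcongr
    _ = _ := mul_comm _ _

theorem abs_core {Rg : Finset ℕ} {p : ℕ → Prop} [DecidablePred p] {w P G : ℕ → ℝ} {W τ S a b y B : ℝ}
    (hw0 : ∀ j, 0 ≤ w j) (hw1 : ∀ j, w j ≤ 1) (hW : ∑ j ∈ Rg, w j = W)
    (hPG : W * y ≤ ∑ j ∈ Rg, w j * (P j * G j)) (hP0 : ∑ j ∈ Rg, w j * P j = 0)
    (ha : ∀ j, |P j| ≤ a) (hb : ∀ j, |G j| ≤ b)
    (hτ : ∑ j ∈ Rg.filter (fun j => ¬ p j), w j ≤ τ) (hS : 1 ≤ S)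
    (hGS : ∀ j ∈ Rg.filter p, |G j| ≤ S) (hB : 0 ≤ B) :
    ((W * y - a * b * τ) / S - a * τ) / 2 - B * W ≤
      ∑ j ∈ (Rg.filter p).filter (fun j => P j < -B), |P j| := by
  have ha0 : 0 ≤ a := (abs_nonneg _).trans (ha 0)
  have hb0 : 0 ≤ b := (abs_nonneg _).trans (hb 0)
  have hS0 : 0 < S := by linarith
  have s1 : ∑ j ∈ Rg.filter p, w j * (P j * G j) + ∑ j ∈ Rg.filter (fun j => ¬ p j), w j * (P j * G j) =
      ∑ j ∈ Rg, w j * (P j * G j) := sum_filter_add_sum_filter_not _ _ _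
  have s2 : ∑ j ∈ Rg.filter p, w j * P j + ∑ j ∈ Rg.filter (fun j => ¬ p j), w j * P j =
      ∑ j ∈ Rg, w j * P j := sum_filter_add_sum_filter_not _ _ _
  have o1 : |∑ j ∈ Rg.filter (fun j => ¬ p j), w j * (P j * G j)| ≤ a * b * τ := by
    refine out_le hw0 (by positivity) (fun j => ?_) hτ
    rw [abs_mul]
    exact mul_le_mul (ha j) (hb j) (abs_nonneg _) ha0
  have o2 : |∑ j ∈ Rg.filter (fun j => ¬ p j), w j * P j| ≤ a * τ := out_le hw0 ha0 ha hτ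
  have e1 : ∑ j ∈ Rg.filter p, w j * (P j * G j) ≤ (∑ j ∈ Rg.filter p, w j * |P j|) * S := by
    rw [sum_mul]
    refine sum_le_sum fun j hj => ?_
    have h4 : P j * G j ≤ |P j| * S := by
      refine (le_abs_self _).trans ?_
      rw [abs_mul]
      exact mul_le_mul_of_nonneg_left (hGS j hj) (abs_nonneg _)
    calc w j * (P j * G j) ≤ w j * (|P j| * S) := mul_le_mul_of_nonneg_left h4 (hw0 j)
      _ = _ := by ring
  have e2 : (W * y - a * b * τ) / S ≤ ∑ j ∈ Rg.filter p, w j * |P j| := by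
    rw [div_le_iff₀ hS0]
    have := (abs_le.1 o1).2
    linarith
  have e3 : ∑ j ∈ Rg.filter p, w j * P j ≤ a * τ := by
    have := (abs_le.1 o2).1
    rw [hP0] at s2
    linarith
  have e4 : ∑ j ∈ Rg.filter p, w j * ((|P j| - P j) / 2) ≤
      ∑ j ∈ (Rg.filter p).filter (fun j => P j < -B), |P j| + B * W := by
    have h1 : ∑ j ∈ Rg.filter p, w j * ((|P j| - P j) / 2) ≤
        ∑ j ∈ Rg.filter p, ((if P j < -B then |P j| else 0) + B * w j) :=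
      sum_le_sum fun j _ => neg_split (hw0 j) (hw1 j) hB
    refine h1.trans ?_
    rw [sum_add_distrib, ← mul_sum, sum_filter (fun j => P j < -B)]
    have h2 : ∑ j ∈ Rg.filter p, w j ≤ W := by
      rw [← hW]
      exact sum_le_sum_of_subset_of_nonneg (filter_subset _ _) fun j _ _ => hw0 j
    have h3 : B * ∑ j ∈ Rg.filter p, w j ≤ B * W := mul_le_mul_of_nonneg_left h2 hB
    linarith
  have e5 : ∑ j ∈ Rg.filter p, w j * ((|P j| - P j) / 2) =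
      (∑ j ∈ Rg.filter p, w j * |P j| - ∑ j ∈ Rg.filter p, w j * P j) / 2 := by
    rw [← sum_sub_distrib, sum_div]
    refine sum_congr rfl fun j _ => ?_
    ring
  linarith

/-- The numerical part. -/
theorem num_core {W q Y S K τ B N2 n τ' : ℝ} (hW : 0 < W) (hq : 0 < q) (hY : 1 ≤ Y) (hK : 0 ≤ K) (hS : 1 ≤ S)
    (hYS : q / 12000 ≤ Y / S) (hN2 : N2 ≤ 4 * W) (hB : B ≤ 32 * (1 / 10 ^ 9 * q)) (hτ0 : 0 ≤ τ)
    (hτ : τ ≤ τ') (hKY : K * Y * τ' ≤ 1 / 10 ^ 9 * q * N2)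
    (h : ((W * (Y / 26) - 12 * K * Y * τ) / S - 12 * K * τ) / 2 - B * W ≤ n) :
    N2 * q ≤ 5000000 * n := by
  have hS0 : 0 < S := by linarith
  have hqW : 0 < q * W := by positivity
  have h2 : W * (q / 312000) ≤ W * (Y / 26) / S := by
    calc W * (q / 312000) = W / 26 * (q / 12000) := by ring
      _ ≤ W / 26 * (Y / S) := by gcongr
      _ = _ := by ring
  have hτK : K * Y * τ ≤ K * Y * τ' := by gcongr
  have h3 : 12 * K * Y * τ / S ≤ 12 * K * Y * τ := div_le_self (by positivity) hS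
  have h4 : 12 * K * τ ≤ 12 * K * Y * τ := by
    have : 0 ≤ 12 * K * τ := by positivity
    nlinarith
  have h5 : 1 / 10 ^ 9 * q * N2 ≤ 1 / 10 ^ 9 * q * (4 * W) := by gcongr
  have h6 : B * W ≤ 32 * (1 / 10 ^ 9 * q) * W := by gcongr
  have h7 : N2 * q ≤ 4 * W * q := by gcongr
  have e1 : W * (q / 312000) = 1 / 312000 * (q * W) := by ring
  have e2 : 1 / 10 ^ 9 * q * (4 * W) = 4 / 10 ^ 9 * (q * W) := by ring
  have e3 : 32 * (1 / 10 ^ 9 * q) * W = 32 / 10 ^ 9 * (q * W) := by ring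
  have e4 : 4 * W * q = 4 * (q * W) := by ring
  have e5 : (W * (Y / 26) - 12 * K * Y * τ) / S = W * (Y / 26) / S - 12 * K * Y * τ / S := sub_div _ _ _
  rw [e5] at h
  rw [e1] at h2
  rw [e2] at h5
  rw [e3] at h6
  rw [e4] at h7
  have e6 : 12 * K * Y * τ ≤ 48 / 10 ^ 9 * (q * W) := by nlinarith
  linarith

theorem core : ∃ (c₁ C₂ : ℝ) (Y0 : ℕ), 0 < c₁ ∧ 0 < C₂ ∧ ∀ J K Y N c : ℕ, 1 ≤ J → Y0 ≤ Y →
    2 * Y ≤ K → J * (2 * K * Y) ≤ N → N ≤ c → 8 * K ≤ c → 4 * Y ^ 2 ≤ c → c ≤ K ^ 2 →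
    (K : ℝ) ^ 2 / c ≤ c₁ * (Y * √((Y : ℝ) / c)) →
    (K : ℝ) * Y * (2 * N / c) ^ (2 * (J - 1)) * 2 ^ J ≤ c₁ * (Y * √((Y : ℝ) / c)) →
    ((N : ℝ) / 2 ^ J * (Y * √((Y : ℝ) / c))) ^ 2 ≤ C₂ * K ^ 3 * Real.log (2 * K) *
      (({n : ℕ | n ≤ 2 * c ∧ ∃ k : ℕ, K ≤ k ∧ k < n ∧
        (Icc (n + 1) (n + k)).lcm id < (Icc (n - k + 1) n).lcm id}.ncard : ℕ) : ℝ) := by
  classical
  obtain ⟨Y1, hY1⟩ := theta_dy
  obtain ⟨C, hC0, hC⟩ := Ph_sq
  refine ⟨1 / 10 ^ 9, 8 * C * 5000000 ^ 2, max Y1 4, by norm_num, by positivity, ?_⟩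
  intro J K Y N c hJ hY hYK hJN hNc hKc hYc hcK hB hT
  have hY4 : 4 ≤ Y := (le_max_right _ _).trans hY
  have hK8 : 8 ≤ K := by omega
  have hc1 : 64 ≤ c := by omega
  have hN1 : 1 ≤ N := by
    refine le_trans ?_ hJN
    exact Nat.mul_pos (by omega) (Nat.mul_pos (by omega) (by omega))
  obtain ⟨Q0, hQ0⟩ : ∃ Q0, Q0 = (2 * K).factorial := ⟨_, rfl⟩
  have hQ0p : 0 < Q0 := by rw [hQ0]; exact Nat.factorial_pos _
  have hQd : ∀ d, 1 ≤ d → d ≤ 2 * K → d ∣ Q0 := fun d h1 h2 => by rw [hQ0]; exact Nat.dvd_factorial h1 h2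
  obtain ⟨k, hKk, hk2, hkS⟩ := exists_k (K := K) (a := Y / 4) (b := Y) (by omega) hYK
  have hk1 : 1 ≤ k := by omega
  have hQdk : ∀ d, 1 ≤ d → d ≤ k → d ∣ Q0 := fun d h1 h2 => hQd d h1 (by omega)
  have hQdY : ∀ d, 1 ≤ d → d ≤ Y → d ∣ Q0 := fun d h1 h2 => hQd d h1 (by omega)
  have hcor := av_Ph_GG (k := k) (a := Y / 4) (b := Y) hQ0p hQdk (by omega) (by omega)
  have hth := hY1 Y ((le_max_left _ _).trans hY)
  -- sizes
  have hKr : (8 : ℝ) ≤ K := by exact_mod_cast hK8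
  have hYr : (4 : ℝ) ≤ Y := by exact_mod_cast hY4
  have hcr : (64 : ℝ) ≤ c := by exact_mod_cast hc1
  have hNr : (1 : ℝ) ≤ N := by exact_mod_cast hN1
  have hmean : (Y : ℝ) / 26 ≤ av Q0 (fun n => Ph k n * GG (Y / 4) Y n) := by
    refine le_trans ?_ hcor
    have h1 : (1 : ℝ) / 4 * ((Y : ℝ) / 4) ≤ ∑ p ∈ pr (Y / 4) Y, Real.log p * Real.sin (Real.pi * k / p) ^ 2 :=
      le_trans (by gcongr) hkS
    have h2 : (2 : ℝ) / Real.pi * (1 / 4 * ((Y : ℝ) / 4)) ≤ 2 / Real.pi * ∑ p ∈ pr (Y / 4) Y, Real.log p * Real.sin (Real.pi * k / p) ^ 2 := by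
      have := Real.pi_pos
      gcongr
    refine le_trans ?_ h2
    have hpi : Real.pi < 3.15 := Real.pi_lt_d2
    have hpi0 := Real.pi_pos
    rw [div_mul_eq_mul_div, le_div_iff₀ hpi0]
    nlinarith
  -- the modulus
  have hQbig : 2 * c ≤ Q0 := by
    have h1 : 2 * K * (2 * K - 1) ≤ Q0 := by
      rw [hQ0]
      obtain ⟨t, ht⟩ : ∃ t, 2 * K = t + 2 := ⟨2 * K - 2, by omega⟩
      rw [ht, Nat.factorial_succ, Nat.factorial_succ]
      have := Nat.factorial_pos t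
      calc (t + 2) * (t + 2 - 1) = (t + 1 + 1) * ((t + 1) * 1) := by
            rw [show t + 2 - 1 = t + 1 by omega]; ring
        _ ≤ (t + 1 + 1) * ((t + 1) * t.factorial) := by gcongr; omega
    refine le_trans ?_ h1
    obtain ⟨s, hs⟩ : ∃ s, K = s + 1 := ⟨K - 1, by omega⟩
    rw [hs] at hcK ⊢
    have : 2 * (s + 1) - 1 = 2 * s + 1 := by omega
    rw [this]
    nlinarith
  have hcM2 : 2 * c ≤ N * Q0 := hQbig.trans (Nat.le_mul_of_pos_left _ hN1)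
  obtain ⟨u, hu⟩ : ∃ u, u = c / 2 := ⟨_, rfl⟩
  have hu1 : 0 < u := by omega
  have huc : u ≤ c := by omega
  have hcuM : c + u ≤ N * Q0 := by omega
  have hw0 : ∀ j, 0 ≤ wt (N * Q0) Q0 J c j := fun j => wt_nonneg _ Q0 J c j
  have hw1 : ∀ j, wt (N * Q0) Q0 J c j ≤ 1 := fun j => wt_le_one _ Q0 J c j
  obtain ⟨W, hW⟩ : ∃ W, ∑ j ∈ range (N * Q0), wt (N * Q0) Q0 J c j = W := ⟨_, rfl⟩
  have hWlow : (N : ℝ) / 4 * (1 / 2) ^ J ≤ W := by
    rw [← hW]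
    exact wt_tot hQ0p hN1 hNc hcM2
  have hWpos : 0 < W := lt_of_lt_of_le (by positivity) hWlow
  have hPPB : PB Q0 k (Ph k) := Ph_PB hk1 hQdk
  have hGPB : PB Q0 Y (GG (Y / 4) Y) := GG_PB (by omega) hQdY
  have hPG : W * (Y / 26) ≤ ∑ j ∈ range (N * Q0), wt (N * Q0) Q0 J c j * (Ph k j * GG (Y / 4) Y j) := by
    have h1 : ∑ j ∈ range (N * Q0), wt (N * Q0) Q0 J c j * (Ph k j * GG (Y / 4) Y j) =
        (∑ j ∈ range (N * Q0), wt (N * Q0) Q0 J c j) * av Q0 (fun n => Ph k n * GG (Y / 4) Y n) := by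
      refine wt_av hQ0p hN1 hJ (R := k * Y) ?_ (hPPB.mul hGPB)
      refine le_trans ?_ hJN
      gcongr
    rw [h1, hW]
    exact mul_le_mul_of_nonneg_left hmean hWpos.le
  have hP0 : ∑ j ∈ range (N * Q0), wt (N * Q0) Q0 J c j * Ph k j = 0 := by
    rw [wt_av hQ0p hN1 hJ (R := k) ?_ hPPB, av_Ph hQ0p hQdk, mul_zero]
    refine le_trans ?_ hJN
    refine Nat.mul_le_mul_left _ ?_
    calc k ≤ 2 * K * 1 := by omega
      _ ≤ 2 * K * Y := Nat.mul_le_mul_left _ (by omega)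
  have hPabs : ∀ j, |Ph k j| ≤ 12 * K := by
    intro j
    refine (Ph_abs k j).trans ?_
    have : (k : ℝ) ≤ 2 * K := by exact_mod_cast hk2.le
    linarith
  have hGabs : ∀ j, |GG (Y / 4) Y j| ≤ Y := fun j => GG_abs _ _ j
  have htail := wt_tail (J := J) hQ0p hN1 hJ hu1 huc hcuM
  obtain ⟨τ, hτ⟩ : ∃ τ : ℝ, τ = N * ((N : ℝ) / (2 * u)) ^ (2 * (J - 1)) := ⟨_, rfl⟩
  rw [← hτ] at htail
  have hττ : τ ≤ N * (2 * (N : ℝ) / c) ^ (2 * (J - 1)) := by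
    rw [hτ]
    have h2u : (c : ℝ) ≤ 2 * u + 1 := by
      have : c ≤ 2 * u + 1 := by omega
      exact_mod_cast this
    have : (N : ℝ) / (2 * u) ≤ 2 * N / c := by
      rw [div_le_div_iff₀ (by linarith) (by linarith)]
      nlinarith
    gcongr
  have hτ0 : 0 ≤ τ := by rw [hτ]; positivity
  -- sup bound in the window
  obtain ⟨S, hS⟩ : ∃ S : ℝ, S = 8000 * √(2 * (c : ℝ) / Y) := ⟨_, rfl⟩
  have hcY : (Y : ℝ) ≤ 2 * c := by
    have : Y ≤ 2 * c := by omega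
    exact_mod_cast this
  have hS1 : 1 ≤ S := by
    have : 1 ≤ √(2 * (c : ℝ) / Y) := by
      rw [Real.one_le_sqrt, le_div_iff₀ (by linarith)]
      linarith
    rw [hS]
    linarith
  have hGS : ∀ j ∈ (range (N * Q0)).filter (fun j => c < j + u ∧ j < c + u), |GG (Y / 4) Y j| ≤ S := by
    intro j hj
    rw [mem_filter] at hj
    have hj1 : c ≤ 2 * j := by omega
    have hj2 : j ≤ 2 * c := by omega
    refine (GG_le (Y := Y) (n := j) (by omega) ?_).trans ?_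
    · nlinarith
    · rw [hS]
      have : (j : ℝ) ≤ 2 * c := by exact_mod_cast hj2
      gcongr
  obtain ⟨q, hq⟩ : ∃ q : ℝ, q = Y * √((Y : ℝ) / c) := ⟨_, rfl⟩
  rw [← hq] at hB hT ⊢
  have hq0 : 0 < q := by
    rw [hq]
    have : 0 < √((Y : ℝ) / c) := Real.sqrt_pos.2 (by positivity)
    positivity
  have hYS : q / 12000 ≤ Y / S := by
    rw [div_le_div_iff₀ (by norm_num) (by linarith), hq, hS]
    have h1 : √((Y : ℝ) / c) * √(2 * (c : ℝ) / Y) = √2 := by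
      rw [← Real.sqrt_mul (by positivity)]
      congr 1
      field_simp
    have h2 : √(2 : ℝ) ≤ 3 / 2 := by
      rw [Real.sqrt_le_left (by norm_num)]
      norm_num
    calc (Y : ℝ) * √((Y : ℝ) / c) * (8000 * √(2 * (c : ℝ) / Y)) =
        8000 * Y * (√((Y : ℝ) / c) * √(2 * (c : ℝ) / Y)) := by ring
      _ = 8000 * Y * √2 := by rw [h1]
      _ ≤ 8000 * Y * (3 / 2) := by gcongr
      _ = _ := by ring
  obtain ⟨B0, hB0⟩ : ∃ B0 : ℝ, B0 = 32 * (K : ℝ) ^ 2 / c := ⟨_, rfl⟩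
  have hB00 : 0 ≤ B0 := by rw [hB0]; positivity
  have hBq : B0 ≤ 32 * (1 / 10 ^ 9 * q) := by
    rw [hB0]
    calc 32 * (K : ℝ) ^ 2 / c = 32 * ((K : ℝ) ^ 2 / c) := by ring
      _ ≤ _ := by gcongr
  have hmain := abs_core hw0 hw1 hW hPG hP0 hPabs hGabs htail hS1 hGS hB00
  obtain ⟨Bad, hBad⟩ : ∃ Bad, Bad = ((range (N * Q0)).filter (fun j => c < j + u ∧ j < c + u)).filter
    (fun j => Ph k j < -B0) := ⟨_, rfl⟩
  rw [← hBad] at hmain
  have hN2 : (N : ℝ) / 2 ^ J ≤ 4 * W := by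
    have : (N : ℝ) / 4 * (1 / 2) ^ J = N / 2 ^ J / 4 := by
      rw [one_div, inv_pow]
      field_simp
    linarith
  have hKY : (K : ℝ) * Y * (N * (2 * (N : ℝ) / c) ^ (2 * (J - 1))) ≤ 1 / 10 ^ 9 * q * (N / 2 ^ J) := by
    have h5 : (K : ℝ) * Y * (N * (2 * (N : ℝ) / c) ^ (2 * (J - 1))) =
        (K * Y * (2 * N / c) ^ (2 * (J - 1)) * 2 ^ J) * (N / 2 ^ J) := by
      field_simp
    rw [h5]
    gcongr
  have e6 : (N : ℝ) / 2 ^ J * q ≤ 5000000 * ∑ j ∈ Bad, |Ph k j| :=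
    num_core hWpos hq0 (by linarith) (by linarith) hS1 hYS hN2 hBq hτ0 hττ hKY hmain
  -- Cauchy-Schwarz
  have e7 : (∑ j ∈ Bad, |Ph k j|) ^ 2 ≤ Bad.card * ∑ j ∈ Bad, Ph k j ^ 2 := by
    have h1 := sq_sum_le_card_mul_sum_sq (s := Bad) (f := fun j => |Ph k j|)
    simp only [sq_abs] at h1
    exact h1
  have e8 : ∑ j ∈ Bad, Ph k j ^ 2 ≤ C * k ^ 3 * Real.log k := by
    have h1 := hC k (by omega) (c - u) (2 * u) (by
      calc 2 * u ≤ c := by omega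
        _ ≤ K ^ 2 := hcK
        _ ≤ k ^ 2 := by gcongr)
    refine le_trans ?_ h1
    have h2 : Bad ⊆ (range (2 * u)).image (fun j => c - u + j) := by
      intro j hj
      rw [hBad, mem_filter, mem_filter, mem_range] at hj
      rw [mem_image]
      refine ⟨j - (c - u), ?_, ?_⟩
      · rw [mem_range]
        omega
      · omega
    refine (sum_le_sum_of_subset_of_nonneg h2 fun j _ _ => sq_nonneg _).trans (le_of_eq ?_)
    rw [sum_image]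
    intro i _ j _ hij
    simp only at hij
    omega
  have e9 : C * k ^ 3 * Real.log k ≤ 8 * C * K ^ 3 * Real.log (2 * K) := by
    have hk3 : (k : ℝ) ≤ 2 * K := by exact_mod_cast hk2.le
    have hkr : (8 : ℝ) ≤ k := by exact_mod_cast (by omega : 8 ≤ k)
    have h1 : Real.log k ≤ Real.log (2 * K) := Real.log_le_log (by linarith) hk3
    have h2 : 0 ≤ Real.log (k : ℝ) := Real.log_nonneg (by linarith)
    calc C * k ^ 3 * Real.log k ≤ C * (2 * K) ^ 3 * Real.log (2 * K) := by gcongr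
      _ = _ := by ring
  -- the set
  obtain ⟨E, hE⟩ : ∃ E : Set ℕ, E = {n : ℕ | n ≤ 2 * c ∧ ∃ k : ℕ, K ≤ k ∧ k < n ∧
        (Icc (n + 1) (n + k)).lcm id < (Icc (n - k + 1) n).lcm id} := ⟨_, rfl⟩
  rw [← hE]
  have hEfin : E.Finite := (Set.finite_Iic (2 * c)).subset fun n hn => by
    rw [hE] at hn
    exact hn.1
  have hsub : (Bad : Set ℕ) ⊆ E := by
    intro j hj
    rw [mem_coe, hBad, mem_filter, mem_filter, mem_range] at hj
    obtain ⟨⟨_, hj1, hj2⟩, hj3⟩ := hj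
    have hjc : c ≤ 2 * j := by omega
    rw [hE]
    refine ⟨by omega, k, hKk, by omega, rev_of hk1 (by omega) ?_⟩
    refine lt_of_lt_of_le hj3 ?_
    rw [neg_le_neg_iff, hB0]
    have hjr : (c : ℝ) ≤ 2 * j := by exact_mod_cast hjc
    have hk3 : (k : ℝ) ≤ 2 * K := by exact_mod_cast hk2.le
    rw [div_le_div_iff₀ (by linarith) (by linarith)]
    have h1 : (k : ℝ) ^ 2 ≤ (2 * K) ^ 2 := by gcongr
    calc 4 * (k : ℝ) ^ 2 * c ≤ 4 * (2 * K) ^ 2 * (2 * j) := by gcongr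
      _ = _ := by ring
  have hcard : (Bad.card : ℝ) ≤ (E.ncard : ℝ) := by
    have h1 := Set.ncard_le_ncard hsub hEfin
    rw [Set.ncard_coe_finset] at h1
    exact_mod_cast h1
  have hlog : 0 ≤ Real.log (2 * K) := Real.log_nonneg (by linarith)
  calc ((N : ℝ) / 2 ^ J * q) ^ 2 ≤ (5000000 * ∑ j ∈ Bad, |Ph k j|) ^ 2 := by gcongr
    _ = 5000000 ^ 2 * (∑ j ∈ Bad, |Ph k j|) ^ 2 := by ring
    _ ≤ 5000000 ^ 2 * (Bad.card * ∑ j ∈ Bad, Ph k j ^ 2) := by gcongr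
    _ ≤ 5000000 ^ 2 * (E.ncard * (8 * C * K ^ 3 * Real.log (2 * K))) := by
        gcongr
        exact e8.trans e9
    _ = _ := by ring

end LCG
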