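import Pool.Agent.LCE.Tst

/-!
# LCG: long reversed blocks, definitions
-/

set_option autoImplicit false

namespace LCG

open Finset Function ArithmeticFunction LCB LCD LCE

/-- The sum over the prime powers up to `k`. -/
noncomputable def Ph (k n : ℕ) : ℝ := ∑ d ∈ Icc 1 k, Λ d * X d k n

/-- The wave with period `m`. -/
noncomputable def sn (m n : ℕ) : ℝ := Real.sin (2 * Real.pi * (((n : ℝ) + 1 / 2) / m))

/-- The flat test function: all integers in `(a, b]`. -/
noncomputable def GG (a b n : ℕ) : ℝ := ∑ m ∈ Ioc a b, sn m n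

/-- The Dirichlet kernel around `c`. -/
noncomputable def dk (M H c j : ℕ) : ℂ :=
  ∑ s ∈ range H, Complex.exp (2 * Real.pi * Complex.I * ((s : ℂ) * ((j : ℂ) - c) / M))

/-- The weight. -/
noncomputable def wt (M H J c j : ℕ) : ℝ := (‖dk M H c j‖ / H) ^ (2 * J)

theorem wt_nonneg (M H J c j : ℕ) : 0 ≤ wt M H J c j := by
  unfold wt
  positivity

theorem dk_le (M H c j : ℕ) : ‖dk M H c j‖ ≤ H := by
  unfold dk
  refine (norm_sum_le _ _).trans ?_
  calc ∑ s ∈ range H, ‖Complex.exp (2 * Real.pi * Complex.I * ((s : ℂ) * ((j : ℂ) - c) / M))‖ =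
      ∑ s ∈ range H, (1 : ℝ) := by
        refine sum_congr rfl fun s _ => ?_
        have : (2 * Real.pi * Complex.I * ((s : ℂ) * ((j : ℂ) - c) / M) : ℂ) =
            ((2 * Real.pi * ((s : ℝ) * ((j : ℝ) - c) / M) : ℝ) : ℂ) * Complex.I := by
          push_cast
          ring
        rw [this, Complex.norm_exp_ofReal_mul_I]
    _ = H := by rw [sum_const, card_range, nsmul_eq_mul, mul_one]
    _ ≤ H := le_refl _

theorem wt_le_one (M H J c j : ℕ) : wt M H J c j ≤ 1 := by
  unfold wt
  refine pow_le_one₀ (by positivity) ?_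
  exact div_le_one_of_le₀ (dk_le M H c j) (Nat.cast_nonneg _)

end LCG
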