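import Mathlib

/-! Kusmin-Landau and van der Corput's second difference test; copies of
`Pool.Agent.AAS.kusmin_landau` and `Pool.Agent.AAS.second_difference_test`. -/

set_option autoImplicit false

namespace Pool.Agent.LCG

open Complex Finset MeasureTheory Filter Topology Set

namespace VKL

/-- lower bound for the sine away from the multiples of `π` -/
lemma sin_ge {δ θ : ℝ} (h1 : Real.pi * δ ≤ θ) (h2 : θ ≤ Real.pi - Real.pi * δ) (hδ : 0 < δ) :
    2 * δ ≤ Real.sin θ := by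
  have hpi := Real.pi_pos
  have h0 : 0 < Real.pi * δ := by positivity
  rcases le_total θ (Real.pi / 2) with h | h
  · have h3 := Real.mul_le_sin (by linarith : 0 ≤ θ) h
    have h4 : 2 * δ = 2 / Real.pi * (Real.pi * δ) := by field_simp
    rw [h4]
    refine le_trans ?_ h3
    gcongr
  · rw [← Real.sin_pi_sub]
    have h3 := Real.mul_le_sin (by linarith : 0 ≤ Real.pi - θ) (by linarith)
    have h4 : 2 * δ = 2 / Real.pi * (Real.pi * δ) := by field_simp
    rw [h4]
    refine le_trans ?_ h3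
    gcongr
    linarith

/-- the cotangent -/
noncomputable def ct (θ : ℝ) : ℝ := Real.cos θ / Real.sin θ

lemma ct_anti {x y : ℝ} (hx : 0 < Real.sin x) (hy : 0 < Real.sin y) (hxy : x ≤ y)
    (hpi : y - x ≤ Real.pi) : ct y ≤ ct x := by
  unfold ct
  rw [div_le_div_iff₀ hy hx]
  have h1 := Real.sin_nonneg_of_nonneg_of_le_pi (by linarith : 0 ≤ y - x) hpi
  rw [Real.sin_sub] at h1
  linarith

lemma abs_ct_le {δ θ : ℝ} (hδ : 0 < δ) (h : 2 * δ ≤ Real.sin θ) : |ct θ| ≤ 1 / (2 * δ) := by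
  have hs : 0 < Real.sin θ := by linarith
  unfold ct
  rw [abs_div, abs_of_pos hs]
  exact div_le_div₀ zero_le_one (Real.abs_cos_le_one θ) (by positivity) h

/-- the factor of the summation by parts -/
noncomputable def cc (θ : ℝ) : ℂ := (1 + (ct θ : ℂ) * I) / 2

lemma cc_mul {θ : ℝ} (hs : Real.sin θ ≠ 0) : cc θ * (1 - cexp (2 * θ * I)) = 1 := by
  have hs' : (Real.sin θ : ℂ) ≠ 0 := by exact_mod_cast hs
  have e : cexp (2 * θ * I) = ((Real.cos θ : ℂ) + (Real.sin θ : ℂ) * I) ^ 2 := by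
    rw [show (2 * θ * I : ℂ) = ((2 : ℕ) : ℂ) * (θ * I) by push_cast; ring, Complex.exp_nat_mul,
      Complex.exp_mul_I, Complex.ofReal_cos, Complex.ofReal_sin]
  have h1 : (Real.sin θ : ℂ) ^ 2 + (Real.cos θ : ℂ) ^ 2 = 1 := by
    exact_mod_cast Real.sin_sq_add_cos_sq θ
  have h2 : I ^ 2 = -1 := Complex.I_sq
  have hct : (ct θ : ℂ) = (Real.cos θ : ℂ) / (Real.sin θ : ℂ) := Complex.ofReal_div _ _
  rw [e]
  unfold cc
  rw [hct]
  generalize (Real.sin θ : ℂ) = s at *
  generalize (Real.cos θ : ℂ) = c at *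
  have h3 : (1 + c / s * I) / 2 * (1 - (c + s * I) ^ 2) =
      ((s + c * I) * (1 - (c + s * I) ^ 2)) / (2 * s) := by
    field_simp
  rw [h3, div_eq_one_iff_eq (by simpa using hs')]
  linear_combination (2 * s - (s + c * I)) * h1 + (-2 * s * c ^ 2 - (s + c * I) * s ^ 2) * h2

lemma norm_cc {δ θ : ℝ} (hδ : 0 < δ) (h : 2 * δ ≤ Real.sin θ) : ‖cc θ‖ ≤ 1 / (4 * δ) := by
  have hs : 0 < Real.sin θ := by linarith
  have h1 : ‖(1 + (ct θ : ℂ) * I)‖ = 1 / Real.sin θ := by
    have e : (1 + (ct θ : ℂ) * I) = ((1 : ℝ) : ℂ) + (ct θ : ℂ) * I := by push_cast; ring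
    rw [e, Complex.norm_add_mul_I]
    have h2 : (1 : ℝ) ^ 2 + ct θ ^ 2 = (1 / Real.sin θ) ^ 2 := by
      unfold ct
      field_simp
      exact Real.sin_sq_add_cos_sq θ
    rw [h2, Real.sqrt_sq (by positivity)]
  unfold cc
  rw [norm_div, h1]
  have h2 : ‖(2 : ℂ)‖ = 2 := by norm_num
  rw [h2, div_div]
  apply one_div_le_one_div_of_le (by positivity)
  linarith

/-- summation by parts -/
lemma by_parts (E C : ℕ → ℂ) (a k : ℕ) (h : ∀ n, a ≤ n → n ≤ a + k → C n * (E n - E (n + 1)) = E n) :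
    ∑ n ∈ Finset.Ico a (a + k + 1), E n = C a * E a - C (a + k) * E (a + k + 1) +
      ∑ j ∈ Finset.range k, (C (a + j + 1) - C (a + j)) * E (a + j + 1) := by
  induction k with
  | zero =>
    rw [Finset.sum_Ico_succ_top (by omega)]
    simp only [add_zero, Finset.Ico_self, Finset.sum_empty, Finset.range_zero, zero_add]
    have := h a le_rfl (by omega)
    linear_combination -this
  | succ k ih =>
    rw [Finset.sum_Ico_succ_top (by omega), show a + (k + 1) = a + k + 1 by ring,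
      ih (fun n h1 h2 => h n h1 (by omega)), Finset.sum_range_succ]
    have := h (a + k + 1) (by omega) (by omega)
    linear_combination -this

end VKL

/-- the inequality of Kusmin and Landau.  `g n = f (n+1) - f n`, `C n = (1 - e(g n))⁻¹ =
(1 + i cot (π g n)) / 2`, `e(f n) = C n (e(f n) - e(f (n+1)))`, summation by parts, `cot` is
monotone on `(ν, ν+1)` (scaled by `π`), `|C n| ≤ 1 / (4 δ)`, `|cot (π g)| ≤ 1 / (2 δ)`. -/
theorem kusmin_landau {f : ℕ → ℝ} {a b : ℕ} {δ : ℝ} {ν : ℤ} (hδ : 0 < δ)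
    (hmono : ∀ n, a ≤ n → n + 1 < b → f (n + 1) - f n ≤ f (n + 2) - f (n + 1))
    (hl : ∀ n, a ≤ n → n < b → (ν : ℝ) + δ ≤ f (n + 1) - f n)
    (hu : ∀ n, a ≤ n → n < b → f (n + 1) - f n ≤ (ν : ℝ) + 1 - δ) :
    ‖∑ n ∈ Finset.Ico a b, cexp (2 * Real.pi * I * f n)‖ ≤ 1 / δ := by
  rcases le_or_gt b a with hab | hab
  · rw [Finset.Ico_eq_empty_of_le hab, Finset.sum_empty, norm_zero]
    positivity
  obtain ⟨k, rfl⟩ : ∃ k, b = a + k + 1 := ⟨b - a - 1, by omega⟩
  have hpi := Real.pi_pos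
  set th : ℕ → ℝ := fun n => Real.pi * (f (n + 1) - f n - ν) with hth
  have hth1 : ∀ n, a ≤ n → n ≤ a + k → Real.pi * δ ≤ th n := by
    intro n h1 h2
    have := hl n h1 (by omega)
    simp only [hth]
    gcongr
    linarith
  have hth2 : ∀ n, a ≤ n → n ≤ a + k → th n ≤ Real.pi - Real.pi * δ := by
    intro n h1 h2
    have := hu n h1 (by omega)
    have e : Real.pi - Real.pi * δ = Real.pi * (1 - δ) := by ring
    simp only [hth]
    rw [e]
    exact mul_le_mul_of_nonneg_left (by linarith) hpi.le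
  have hsin : ∀ n, a ≤ n → n ≤ a + k → 2 * δ ≤ Real.sin (th n) := fun n h1 h2 =>
    VKL.sin_ge (hth1 n h1 h2) (hth2 n h1 h2) hδ
  have hE : ∀ n, cexp (2 * Real.pi * I * f (n + 1)) =
      cexp (2 * Real.pi * I * f n) * cexp (2 * (th n : ℂ) * I) := by
    intro n
    rw [← Complex.exp_add]
    have e : (2 * Real.pi * I * f (n + 1) : ℂ) =
        2 * Real.pi * I * f n + 2 * (th n : ℂ) * I + ν * (2 * Real.pi * I) := by
      simp only [hth]
      push_cast
      ring
    rw [e, Complex.exp_add, Complex.exp_int_mul_two_pi_mul_I, mul_one]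
  have hC : ∀ n, a ≤ n → n ≤ a + k → VKL.cc (th n) *
      (cexp (2 * Real.pi * I * f n) - cexp (2 * Real.pi * I * f (n + 1))) =
        cexp (2 * Real.pi * I * f n) := by
    intro n h1 h2
    have h3 := VKL.cc_mul (θ := th n) (by have := hsin n h1 h2; linarith)
    rw [hE n]
    linear_combination cexp (2 * Real.pi * I * f n) * h3
  have hnorm : ∀ n, ‖cexp (2 * Real.pi * I * f n)‖ = 1 := by
    intro n
    rw [show (2 * Real.pi * I * f n : ℂ) = ((2 * Real.pi * f n : ℝ) : ℂ) * I by push_cast; ring]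
    exact Complex.norm_exp_ofReal_mul_I _
  rw [VKL.by_parts (fun n => cexp (2 * Real.pi * I * f n)) (fun n => VKL.cc (th n)) a k hC]
  have b1 : ‖VKL.cc (th a) * cexp (2 * Real.pi * I * f a)‖ ≤ 1 / (4 * δ) := by
    rw [norm_mul, hnorm, mul_one]
    exact VKL.norm_cc hδ (hsin a le_rfl (by omega))
  have b2 : ‖VKL.cc (th (a + k)) * cexp (2 * Real.pi * I * f (a + k + 1))‖ ≤ 1 / (4 * δ) := by
    rw [norm_mul, hnorm, mul_one]
    exact VKL.norm_cc hδ (hsin (a + k) (by omega) (by omega))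
  have b3 : ‖∑ j ∈ Finset.range k, (VKL.cc (th (a + j + 1)) - VKL.cc (th (a + j))) *
      cexp (2 * Real.pi * I * f (a + j + 1))‖ ≤
      (VKL.ct (th a) - VKL.ct (th (a + k))) / 2 := by
    refine (norm_sum_le _ _).trans ?_
    have h1 : ∀ j ∈ Finset.range k, ‖(VKL.cc (th (a + j + 1)) - VKL.cc (th (a + j))) *
        cexp (2 * Real.pi * I * f (a + j + 1))‖ ≤
        VKL.ct (th (a + j)) / 2 - VKL.ct (th (a + (j + 1))) / 2 := by
      intro j hj
      rw [Finset.mem_range] at hj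
      rw [norm_mul, hnorm, mul_one]
      have e : VKL.cc (th (a + j + 1)) - VKL.cc (th (a + j)) =
          (((VKL.ct (th (a + j + 1)) - VKL.ct (th (a + j))) / 2 : ℝ) : ℂ) * I := by
        unfold VKL.cc
        push_cast
        ring
      rw [e, norm_mul, Complex.norm_I, mul_one, Complex.norm_real, Real.norm_eq_abs]
      have h2 : VKL.ct (th (a + j + 1)) ≤ VKL.ct (th (a + j)) := by
        have s1 := hsin (a + j) (by omega) (by omega)
        have s2 := hsin (a + j + 1) (by omega) (by omega)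
        apply VKL.ct_anti (by linarith) (by linarith)
        · have := hmono (a + j) (by omega) (by omega)
          simp only [hth]
          rw [show a + j + 1 + 1 = a + j + 2 by ring]
          gcongr
        · have := hth1 (a + j) (by omega) (by omega)
          have := hth2 (a + j + 1) (by omega) (by omega)
          have : 0 < Real.pi * δ := by positivity
          linarith
      rw [abs_of_nonpos (by linarith), show a + (j + 1) = a + j + 1 by ring]
      linarith
    refine (Finset.sum_le_sum h1).trans ?_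
    have h2 := Finset.sum_range_sub' (fun j => VKL.ct (th (a + j)) / 2) k
    rw [h2, add_zero]
    linarith
  have c1 := abs_le.1 (VKL.abs_ct_le hδ (hsin a le_rfl (by omega)))
  have c2 := abs_le.1 (VKL.abs_ct_le hδ (hsin (a + k) (by omega) (by omega)))
  refine (norm_add_le _ _).trans ?_
  have b4 := norm_sub_le (VKL.cc (th a) * cexp (2 * Real.pi * I * f a))
    (VKL.cc (th (a + k)) * cexp (2 * Real.pi * I * f (a + k + 1)))
  have e1 : 1 / δ = 1 / (4 * δ) + 1 / (4 * δ) + (1 / (2 * δ) + 1 / (2 * δ)) / 2 := by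
    field_simp
    norm_num
  linarith [c1.1, c1.2, c2.1, c2.2]

namespace VSD

/-- the first differences -/
def gg (f : ℕ → ℝ) (n : ℕ) : ℝ := f (n + 1) - f n

lemma gg_bounds {f : ℕ → ℝ} {a b : ℕ} {lam A : ℝ}
    (hl : ∀ n, a ≤ n → n < b → lam ≤ f (n + 2) - 2 * f (n + 1) + f n)
    (hu : ∀ n, a ≤ n → n < b → f (n + 2) - 2 * f (n + 1) + f n ≤ A * lam)
    (m : ℕ) (ham : a ≤ m) (k : ℕ) (hk : m + k ≤ b) :
    lam * k ≤ gg f (m + k) - gg f m ∧ gg f (m + k) - gg f m ≤ A * lam * k := by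
  induction k with
  | zero => simp
  | succ k ih =>
    obtain ⟨h1, h2⟩ := ih (by omega)
    have h3 := hl (m + k) (by omega) (by omega)
    have h4 := hu (m + k) (by omega) (by omega)
    have e : gg f (m + (k + 1)) = gg f (m + k) + (f (m + k + 2) - 2 * f (m + k + 1) + f (m + k)) := by
      unfold gg
      rw [show m + (k + 1) + 1 = m + k + 2 by ring, show m + (k + 1) = m + k + 1 by ring]
      ring
    rw [e]
    push_cast
    constructor <;> nlinarith

/-- the indices with first difference in `[L, U]` form an interval -/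
lemma interval {f : ℕ → ℝ} {a b : ℕ} (hm : ∀ m n, a ≤ m → m ≤ n → n < b → gg f m ≤ gg f n)
    (L U : ℝ) : ∃ m M : ℕ, (Finset.Ico a b).filter (fun n => L ≤ gg f n ∧ gg f n ≤ U) =
      Finset.Ico m M ∧ ∀ n, m ≤ n → n < M → a ≤ n ∧ n < b ∧ L ≤ gg f n ∧ gg f n ≤ U := by
  set S := (Finset.Ico a b).filter (fun n => L ≤ gg f n ∧ gg f n ≤ U) with hS
  rcases S.eq_empty_or_nonempty with h | h
  · refine ⟨0, 0, by rw [h]; simp, fun n _ h2 => absurd h2 (Nat.not_lt_zero n)⟩
  · have h1 := S.min'_mem h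
    have h2 := S.max'_mem h
    set m := S.min' h with hmin
    set M := S.max' h with hmax
    rw [hS, Finset.mem_filter, Finset.mem_Ico] at h1 h2
    have key : ∀ n, m ≤ n → n < M + 1 → a ≤ n ∧ n < b ∧ L ≤ gg f n ∧ gg f n ≤ U := by
      intro n h3 h4
      refine ⟨by omega, by omega, ?_, ?_⟩
      · exact h1.2.1.trans (hm m n h1.1.1 h3 (by omega))
      · exact (hm n M (by omega) (by omega) h2.1.2).trans h2.2.2
    refine ⟨m, M + 1, ?_, key⟩
    ext n
    rw [Finset.mem_Ico]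
    constructor
    · intro hn
      exact ⟨S.min'_le n hn, Nat.lt_succ_of_le (S.le_max' n hn)⟩
    · intro hn
      have := key n hn.1 hn.2
      rw [hS, Finset.mem_filter, Finset.mem_Ico]
      exact ⟨⟨this.1, this.2.1⟩, this.2.2⟩

/-- the number of indices with first difference in `[L, U]` -/
lemma count {f : ℕ → ℝ} {a b : ℕ} {lam A : ℝ} (hlam : 0 < lam)
    (hl : ∀ n, a ≤ n → n < b → lam ≤ f (n + 2) - 2 * f (n + 1) + f n)
    (hu : ∀ n, a ≤ n → n < b → f (n + 2) - 2 * f (n + 1) + f n ≤ A * lam)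
    (L U : ℝ) (hLU : L ≤ U) :
    (((Finset.Ico a b).filter (fun n => L ≤ gg f n ∧ gg f n ≤ U)).card : ℝ) ≤
      (U - L) / lam + 1 := by
  have hm : ∀ m n, a ≤ m → m ≤ n → n < b → gg f m ≤ gg f n := by
    intro m n h1 h2 h3
    obtain ⟨k, rfl⟩ := Nat.exists_eq_add_of_le h2
    have := (gg_bounds hl hu m h1 k (by omega)).1
    have h4 : 0 ≤ lam * k := by positivity
    linarith
  obtain ⟨m, M, h1, h2⟩ := interval hm L U
  rw [h1, Nat.card_Ico]
  rcases le_or_gt M m with h3 | h3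
  · rw [Nat.sub_eq_zero_of_le h3, Nat.cast_zero]
    have : 0 ≤ (U - L) / lam := div_nonneg (by linarith) hlam.le
    linarith
  · obtain ⟨k, rfl⟩ : ∃ k, M = m + k + 1 := ⟨M - m - 1, by omega⟩
    have h4 := h2 m le_rfl (by omega)
    have h5 := h2 (m + k) (by omega) (by omega)
    have h6 := (gg_bounds hl hu m h4.1 k (by omega)).1
    rw [show m + k + 1 - m = k + 1 by omega]
    push_cast
    have h7 : (k : ℝ) ≤ (U - L) / lam := by
      rw [le_div_iff₀ hlam]
      linarith [h4.2.2.1, h5.2.2.2]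
    linarith

end VSD

open VSD in
/-- the second derivative test of van der Corput for second differences.  If `1/16 ≤ lam` trivial.
Otherwise `δ = √lam`; group the `n` by `ν = ⌊g n⌋`, `g n = f (n+1) - f n` (increasing with steps in
`[lam, A lam]`): at most `A (b - a) lam + 2` values of `ν`, on each fibre the `n` with
`g n < ν + δ` or `g n > ν + 1 - δ` are at most `2 (δ / lam + 1)`, the others form an interval:
`kusmin_landau`. -/
theorem second_difference_test {f : ℕ → ℝ} {a b : ℕ} {lam A : ℝ} (hlam : 0 < lam) (hA : 1 ≤ A)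
    (hl : ∀ n, a ≤ n → n < b → lam ≤ f (n + 2) - 2 * f (n + 1) + f n)
    (hu : ∀ n, a ≤ n → n < b → f (n + 2) - 2 * f (n + 1) + f n ≤ A * lam) (hab : a ≤ b) :
    ‖∑ n ∈ Finset.Ico a b, cexp (2 * Real.pi * I * f n)‖ ≤
      20 * (A * ((b : ℝ) - a) * √lam + 1 / √lam) := by
  have hnorm : ∀ n, ‖cexp (2 * Real.pi * I * f n)‖ = 1 := by
    intro n
    rw [show (2 * Real.pi * I * f n : ℂ) = ((2 * Real.pi * f n : ℝ) : ℂ) * I by push_cast; ring]
    exact Complex.norm_exp_ofReal_mul_I _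
  have hcard : ∀ S : Finset ℕ, ‖∑ n ∈ S, cexp (2 * Real.pi * I * f n)‖ ≤ S.card := by
    intro S
    refine (norm_sum_le _ _).trans ?_
    rw [Finset.sum_congr rfl (fun n _ => hnorm n)]
    simp
  have hba : (0 : ℝ) ≤ (b : ℝ) - a := by
    have : (a : ℝ) ≤ b := by exact_mod_cast hab
    linarith
  have hsq : 0 < √lam := Real.sqrt_pos.2 hlam
  rcases le_or_gt (1 / 16) lam with h16 | h16
  · have h1 := hcard (Finset.Ico a b)
    rw [Nat.card_Ico, Nat.cast_sub hab] at h1
    refine h1.trans ?_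
    have h2 : 1 / 4 ≤ √lam := by
      apply Real.le_sqrt_of_sq_le
      norm_num
      linarith
    have h3 : 0 < 1 / √lam := by positivity
    have h4 : ((b : ℝ) - a) * (1 / 4) ≤ A * ((b : ℝ) - a) * √lam := by
      have h5 : ((b : ℝ) - a) ≤ A * ((b : ℝ) - a) := by nlinarith
      exact mul_le_mul h5 h2 (by norm_num) (by nlinarith)
    linarith
  rcases Nat.eq_or_lt_of_le hab with rfl | hab'
  · rw [Finset.Ico_self, Finset.sum_empty, norm_zero]
    positivity
  set δ := √lam with hδ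
  have hδ2 : δ ^ 2 = lam := Real.sq_sqrt hlam.le
  have hδ4 : δ ≤ 1 / 4 := by
    rw [hδ, Real.sqrt_le_left (by norm_num)]
    norm_num
    linarith
  have hm : ∀ m n, a ≤ m → m ≤ n → n < b → gg f m ≤ gg f n := by
    intro m n h1 h2 h3
    obtain ⟨k, rfl⟩ := Nat.exists_eq_add_of_le h2
    have := (gg_bounds hl hu m h1 k (by omega)).1
    have h4 : 0 ≤ lam * k := by positivity
    linarith
  -- one fibre
  have hfib : ∀ ν : ℤ, ‖∑ n ∈ (Finset.Ico a b).filter (fun n => ⌊gg f n⌋ = ν),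
      cexp (2 * Real.pi * I * f n)‖ ≤ 3 / δ + 2 := by
    intro ν
    set F := (Finset.Ico a b).filter (fun n => ⌊gg f n⌋ = ν) with hF
    set S := (Finset.Ico a b).filter (fun n => (ν : ℝ) + δ ≤ gg f n ∧ gg f n ≤ (ν : ℝ) + 1 - δ)
      with hS
    have hSF : S ⊆ F := by
      intro n hn
      rw [hS, Finset.mem_filter] at hn
      rw [hF, Finset.mem_filter, Int.floor_eq_iff]
      exact ⟨hn.1, by linarith [hn.2.1], by linarith [hn.2.2]⟩
    rw [← Finset.sum_sdiff hSF]
    refine (norm_add_le _ _).trans ?_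
    have b1 : ‖∑ n ∈ S, cexp (2 * Real.pi * I * f n)‖ ≤ 1 / δ := by
      obtain ⟨m, M, h1, h2⟩ := interval hm ((ν : ℝ) + δ) ((ν : ℝ) + 1 - δ)
      rw [hS, h1]
      apply kusmin_landau (ν := ν) hsq
      · intro n h3 h4
        have h5 := h2 n h3 (by omega)
        have h6 := hl n h5.1 h5.2.1
        linarith
      · intro n h3 h4
        exact (h2 n h3 h4).2.2.1
      · intro n h3 h4
        exact (h2 n h3 h4).2.2.2
    have b2 : ‖∑ n ∈ F \ S, cexp (2 * Real.pi * I * f n)‖ ≤ 2 * (δ / lam + 1) := by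
      refine (hcard _).trans ?_
      have hsub : F \ S ⊆ (Finset.Ico a b).filter (fun n => (ν : ℝ) ≤ gg f n ∧ gg f n ≤ (ν : ℝ) + δ) ∪
          (Finset.Ico a b).filter (fun n => (ν : ℝ) + 1 - δ ≤ gg f n ∧ gg f n ≤ (ν : ℝ) + 1) := by
        intro n hn
        rw [Finset.mem_sdiff, hF, hS, Finset.mem_filter, Finset.mem_filter, Int.floor_eq_iff] at hn
        obtain ⟨⟨h1, h2, h3⟩, h4⟩ := hn
        rw [Finset.mem_union, Finset.mem_filter, Finset.mem_filter]
        rcases le_or_gt (gg f n) ((ν : ℝ) + δ) with h5 | h5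
        · exact Or.inl ⟨h1, h2, h5⟩
        · right
          refine ⟨h1, ?_, h3.le⟩
          by_contra h6
          push Not at h6
          exact h4 ⟨h1, h5.le, h6.le⟩
      have c1 := count hlam hl hu (ν : ℝ) ((ν : ℝ) + δ) (by linarith)
      have c2 := count hlam hl hu ((ν : ℝ) + 1 - δ) ((ν : ℝ) + 1) (by linarith)
      have c3 : ((F \ S).card : ℝ) ≤
          ((Finset.Ico a b).filter (fun n => (ν : ℝ) ≤ gg f n ∧ gg f n ≤ (ν : ℝ) + δ)).card +
          ((Finset.Ico a b).filter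
            (fun n => (ν : ℝ) + 1 - δ ≤ gg f n ∧ gg f n ≤ (ν : ℝ) + 1)).card := by
        have := (Finset.card_le_card hsub).trans (Finset.card_union_le _ _)
        exact_mod_cast this
      rw [show (ν : ℝ) + δ - ν = δ by ring] at c1
      rw [show (ν : ℝ) + 1 - ((ν : ℝ) + 1 - δ) = δ by ring] at c2
      linarith
    have e : δ / lam = 1 / δ := by
      rw [← hδ2]
      field_simp
    rw [e] at b2
    have e2 : 3 / δ = 1 / δ + 2 * (1 / δ) := by ring
    rw [e2]
    linarith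
  -- all fibres
  obtain ⟨K, hK⟩ : ∃ K, b = a + K + 1 := ⟨b - a - 1, by omega⟩
  have hmaps : ∀ n ∈ Finset.Ico a b, ⌊gg f n⌋ ∈ Finset.Icc ⌊gg f a⌋ ⌊gg f (a + K)⌋ := by
    intro n hn
    rw [Finset.mem_Ico] at hn
    rw [Finset.mem_Icc]
    exact ⟨Int.floor_le_floor (hm a n le_rfl hn.1 hn.2),
      Int.floor_le_floor (hm n (a + K) hn.1 (by omega) (by omega))⟩
  rw [← Finset.sum_fiberwise_of_maps_to hmaps]
  refine (norm_sum_le _ _).trans ?_
  refine (Finset.sum_le_sum fun ν _ => hfib ν).trans ?_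
  rw [Finset.sum_const, nsmul_eq_mul, Int.card_Icc]
  have hnum : (((⌊gg f (a + K)⌋ + 1 - ⌊gg f a⌋).toNat : ℕ) : ℝ) ≤ A * lam * K + 2 := by
    have h1 : ⌊gg f a⌋ ≤ ⌊gg f (a + K)⌋ :=
      Int.floor_le_floor (hm a (a + K) le_rfl (by omega) (by omega))
    have h2 : (((⌊gg f (a + K)⌋ + 1 - ⌊gg f a⌋).toNat : ℕ) : ℝ) =
        ((⌊gg f (a + K)⌋ + 1 - ⌊gg f a⌋ : ℤ) : ℝ) := by
      have : (((⌊gg f (a + K)⌋ + 1 - ⌊gg f a⌋).toNat : ℕ) : ℤ) = ⌊gg f (a + K)⌋ + 1 - ⌊gg f a⌋ :=
        Int.toNat_of_nonneg (by omega)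
      exact_mod_cast this
    rw [h2]
    push_cast
    have h3 := Int.floor_le (gg f (a + K))
    have h4 := Int.lt_floor_add_one (gg f a)
    have h5 := (gg_bounds hl hu a le_rfl K (by omega)).2
    linarith
  have h3 : (0 : ℝ) ≤ 3 / δ + 2 := by positivity
  refine (mul_le_mul_of_nonneg_right hnum h3).trans ?_
  have hKb : (K : ℝ) ≤ (b : ℝ) - a := by
    rw [hK]
    push_cast
    linarith
  have h4 : 3 / δ + 2 ≤ 4 / δ := by
    rw [div_add' _ _ _ hsq.ne', div_le_div_iff_of_pos_right hsq]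
    linarith
  have h5 : A * lam * K + 2 ≤ A * lam * ((b : ℝ) - a) + 2 := by
    have : 0 ≤ A * lam := by positivity
    nlinarith
  have h6 : 0 ≤ A * lam * ((b : ℝ) - a) + 2 := by positivity
  calc (A * lam * K + 2) * (3 / δ + 2) ≤ (A * lam * ((b : ℝ) - a) + 2) * (4 / δ) :=
        mul_le_mul h5 h4 h3 h6
    _ = 4 * (A * ((b : ℝ) - a) * δ) + 8 * (1 / δ) := by
        rw [← hδ2]
        field_simp
        ring
    _ ≤ 20 * (A * ((b : ℝ) - a) * δ + 1 / δ) := by
        have h7 : 0 ≤ A * ((b : ℝ) - a) * δ := by positivity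
        have h8 : 0 < 1 / δ := by positivity
        linarith

end Pool.Agent.LCG
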