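import Pool.Agent.LCG.Cre

set_option autoImplicit false

namespace LCG

open Finset Function ArithmeticFunction LCB LCD LCE

section Helpers

open Filter

private lemma par_ev (C α β : ℝ) (h : α < β) : ∀ᶠ x : ℝ in atTop, C * x ^ α ≤ x ^ β := by
  have h1 : ∀ᶠ x : ℝ in atTop, C ≤ x ^ (β - α) :=
    (tendsto_rpow_atTop (sub_pos.2 h)).eventually_ge_atTop C
  filter_upwards [h1, eventually_gt_atTop 0] with x hx hx0
  calc C * x ^ α ≤ x ^ (β - α) * x ^ α :=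
        mul_le_mul_of_nonneg_right hx (Real.rpow_nonneg hx0.le _)
    _ = x ^ β := by rw [← Real.rpow_add hx0]; congr 1; ring

private lemma par_log (a η : ℝ) (ha1 : a ≤ 1) (hη : 0 < η) :
    ∀ᶠ x : ℝ in atTop, Real.log (2 * (2 * x ^ a)) ≤ x ^ η := by
  have h1 : ∀ᶠ x : ℝ in atTop, ‖Real.log x‖ ≤ 1 / 2 * ‖x ^ η‖ :=
    (isLittleO_log_rpow_atTop hη).def (by norm_num)
  have h2 : ∀ᶠ x : ℝ in atTop, 2 * Real.log 4 ≤ x ^ η :=
    (tendsto_rpow_atTop hη).eventually_ge_atTop _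
  filter_upwards [h1, h2, eventually_ge_atTop 1] with x hx1 hx2 hx
  have hx0 : 0 < x := by linarith
  have e1 : Real.log (2 * (2 * x ^ a)) = Real.log 4 + a * Real.log x := by
    rw [show 2 * (2 * x ^ a) = 4 * x ^ a by ring,
      Real.log_mul (by norm_num) (Real.rpow_pos_of_pos hx0 a).ne', Real.log_rpow hx0]
  have e2 : 0 ≤ Real.log x := Real.log_nonneg hx
  have e3 : 0 ≤ x ^ η := Real.rpow_nonneg hx0.le η
  rw [Real.norm_of_nonneg e2, Real.norm_of_nonneg e3] at hx1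
  rw [e1]
  nlinarith

/-- sizes of the parameters -/
private lemma par_sizes (a η : ℝ) (J : ℕ) (hJ : 1 ≤ J) (ha0 : 1 / 2 ≤ a) (hη : 0 < η)
    (hb : 0 < 1 - a - η) :
    ∀ᶠ x : ℝ in atTop, 1 ≤ x ∧
      x / 4 ≤ (⌊x / 2⌋₊ : ℝ) ∧ (⌊x / 2⌋₊ : ℝ) ≤ x / 2 ∧
      x ^ a ≤ (⌈x ^ a⌉₊ : ℝ) ∧ (⌈x ^ a⌉₊ : ℝ) ≤ 2 * x ^ a ∧
      x ^ (1 - η) / 2 ≤ (⌊x ^ (1 - η)⌋₊ : ℝ) ∧ (⌊x ^ (1 - η)⌋₊ : ℝ) ≤ x ^ (1 - η) ∧
      x ^ (1 - a - η) / (16 * J) ≤ ((⌊x ^ (1 - η)⌋₊ / (2 * J * ⌈x ^ a⌉₊) : ℕ) : ℝ) ∧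
      ((⌊x ^ (1 - η)⌋₊ / (2 * J * ⌈x ^ a⌉₊) : ℕ) : ℝ) ≤ x ^ (1 - a - η) / (2 * J) := by
  have hJ' : (1 : ℝ) ≤ J := by exact_mod_cast hJ
  have hJ0 : (0 : ℝ) < J := by linarith
  have h1 : ∀ᶠ x : ℝ in atTop, (2 : ℝ) ≤ x ^ (1 - η) :=
    (tendsto_rpow_atTop (by linarith)).eventually_ge_atTop _
  have h2 : ∀ᶠ x : ℝ in atTop, (16 * J : ℝ) ≤ x ^ (1 - a - η) :=
    (tendsto_rpow_atTop hb).eventually_ge_atTop _
  filter_upwards [h1, h2, eventually_ge_atTop 4] with x hx1 hx2 hx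
  have hx0 : 0 < x := by linarith
  have hx1' : 1 ≤ x := by linarith
  have hc1 : (⌊x / 2⌋₊ : ℝ) ≤ x / 2 := Nat.floor_le (by positivity)
  have hc2 : x / 2 < (⌊x / 2⌋₊ : ℝ) + 1 := Nat.lt_floor_add_one _
  have hpa : 1 ≤ x ^ a := Real.one_le_rpow hx1' (by linarith)
  have hK1 : x ^ a ≤ (⌈x ^ a⌉₊ : ℝ) := Nat.le_ceil _
  have hK2 : (⌈x ^ a⌉₊ : ℝ) < x ^ a + 1 := Nat.ceil_lt_add_one (by positivity)
  have hN1 : (⌊x ^ (1 - η)⌋₊ : ℝ) ≤ x ^ (1 - η) := Nat.floor_le (by positivity)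
  have hN2 : x ^ (1 - η) < (⌊x ^ (1 - η)⌋₊ : ℝ) + 1 := Nat.lt_floor_add_one _
  have hN3 : x ^ (1 - η) / 2 ≤ (⌊x ^ (1 - η)⌋₊ : ℝ) := by linarith
  have hK3 : (⌈x ^ a⌉₊ : ℝ) ≤ 2 * x ^ a := by linarith
  have hprod : x ^ (1 - η) = x ^ (1 - a - η) * x ^ a := by
    rw [← Real.rpow_add hx0]; congr 1; ring
  have hK0 : (0 : ℝ) < (⌈x ^ a⌉₊ : ℝ) := by linarith
  have hden : (0 : ℝ) < 2 * J * (⌈x ^ a⌉₊ : ℝ) := by positivity
  refine ⟨hx1', by linarith, hc1, hK1, hK3, hN3, hN1, ?_, ?_⟩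
  · have hq : (⌊x ^ (1 - η)⌋₊ : ℝ) / (2 * J * (⌈x ^ a⌉₊ : ℝ)) <
        ((⌊x ^ (1 - η)⌋₊ / (2 * J * ⌈x ^ a⌉₊) : ℕ) : ℝ) + 1 := by
      have h3 : ⌊x ^ (1 - η)⌋₊ < (2 * J * ⌈x ^ a⌉₊) * (⌊x ^ (1 - η)⌋₊ / (2 * J * ⌈x ^ a⌉₊) + 1) := by
        apply Nat.lt_mul_div_succ
        have : 0 < ⌈x ^ a⌉₊ := by exact_mod_cast hK0
        positivity
      have h4 : (⌊x ^ (1 - η)⌋₊ : ℝ) < (2 * J * (⌈x ^ a⌉₊ : ℝ)) *
          (((⌊x ^ (1 - η)⌋₊ / (2 * J * ⌈x ^ a⌉₊) : ℕ) : ℝ) + 1) := by exact_mod_cast h3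
      rw [div_lt_iff₀ hden]
      linarith
    have hr : x ^ (1 - a - η) / (8 * J) ≤ (⌊x ^ (1 - η)⌋₊ : ℝ) / (2 * J * (⌈x ^ a⌉₊ : ℝ)) := by
      rw [div_le_div_iff₀ (by positivity) hden]
      have h5 : x ^ (1 - a - η) * (2 * J * (⌈x ^ a⌉₊ : ℝ)) ≤
          x ^ (1 - a - η) * (2 * J * (2 * x ^ a)) := by gcongr
      have h6 : x ^ (1 - a - η) * (2 * J * (2 * x ^ a)) = 4 * J * x ^ (1 - η) := by
        rw [hprod]; ring
      have h7 : 4 * J * x ^ (1 - η) ≤ (⌊x ^ (1 - η)⌋₊ : ℝ) * (8 * J) := by nlinarith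
      linarith
    have hs : x ^ (1 - a - η) / (8 * J) = 2 * (x ^ (1 - a - η) / (16 * J)) := by
      field_simp
      ring
    have ht : 1 ≤ x ^ (1 - a - η) / (16 * J) := by
      rw [le_div_iff₀ (by positivity)]
      linarith
    linarith
  · refine Nat.cast_div_le.trans ?_
    push_cast
    rw [div_le_div_iff₀ hden (by positivity)]
    have h5 : (⌊x ^ (1 - η)⌋₊ : ℝ) * (2 * J) ≤ x ^ (1 - η) * (2 * J) := by gcongr
    have h6 : x ^ (1 - η) * (2 * J) = x ^ (1 - a - η) * (2 * J * x ^ a) := by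
      rw [hprod]; ring
    have h7 : x ^ (1 - a - η) * (2 * J * x ^ a) ≤
        x ^ (1 - a - η) * (2 * J * (⌈x ^ a⌉₊ : ℝ)) := by gcongr
    linarith


private lemma par_final (a ε : ℝ) (ha : 1 / 2 ≤ a) (ha' : a < 4 / 7) (hε : 0 < ε) :
    ∃ x₀ : ℝ, ∀ x : ℝ, x₀ ≤ x → x ^ (4 - 6 * a - ε) ≤
      (({n : ℕ | (n : ℝ) ≤ x ∧ ∃ k : ℕ, x ^ a ≤ k ∧ k < n ∧
        (Icc (n + 1) (n + k)).lcm id < (Icc (n - k + 1) n).lcm id}.ncard : ℕ) : ℝ) := by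
  obtain ⟨c₁, C₂, Y0, hc₁, hC₂, hcore⟩ := core
  obtain ⟨η, hη, hη1, hη2⟩ : ∃ η : ℝ, 0 < η ∧ 10 * η ≤ ε ∧ 10 * η ≤ 4 - 7 * a := by
    refine ⟨min ε (4 - 7 * a) / 10, ?_, ?_, ?_⟩
    · have : 0 < min ε (4 - 7 * a) := lt_min hε (by linarith)
      positivity
    · have := min_le_left ε (4 - 7 * a)
      linarith
    · have := min_le_right ε (4 - 7 * a)
      linarith
  obtain ⟨J', hJ'⟩ := exists_nat_ge (1 / η)
  set J : ℕ := J' + 1 with hJdef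
  have hJ1 : 1 ≤ J := by omega
  have hJη : 2 ≤ (2 * (J - 1) : ℕ) * η := by
    have h1 : 1 ≤ (J' : ℝ) * η := by
      have := mul_le_mul_of_nonneg_right hJ' hη.le
      rwa [one_div, inv_mul_cancel₀ hη.ne'] at this
    have h2 : J - 1 = J' := by omega
    rw [h2]
    push_cast
    linarith
  have hJr : (1 : ℝ) ≤ J := by exact_mod_cast hJ1
  have hb : 0 < 1 - a - η := by linarith
  set b : ℝ := 1 - a - η with hbdef
  -- constants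
  set δ : ℝ := 1 / (128 * (J : ℝ) ^ 2) with hδ
  have hδ0 : 0 < δ := by positivity
  have e1 := par_ev (16 / (c₁ * δ)) (2 * a - 1) ((3 * b - 1) / 2) (by rw [hbdef]; linarith)
  have e2 := par_ev (2 * 8 ^ (2 * (J - 1)) * 2 ^ J / (c₁ * δ)) (-1 - η) ((3 * b - 1) / 2)
    (by rw [hbdef]; linarith)
  have e3 := par_ev (C₂ * 8 / (1 / (2 * 2 ^ J) * δ) ^ 2) (4 - 6 * a - ε) (4 - 6 * a - 6 * η)
    (by linarith)
  have e4 := par_ev 4 (1 - η) 1 (by linarith)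
  have e5 := par_ev 64 a 1 (by linarith)
  have e6 := par_ev 16 (2 * b) 1 (by rw [hbdef]; linarith)
  have e7 := par_log a η (by linarith) hη
  have e8 : ∀ᶠ x : ℝ in atTop, (16 * J : ℝ) * Y0 ≤ x ^ b :=
    (tendsto_rpow_atTop hb).eventually_ge_atTop _
  have hall := (par_sizes a η J hJ1 ha hη hb).and
    (e1.and (e2.and (e3.and (e4.and (e5.and (e6.and (e7.and e8)))))))
  obtain ⟨x₀, hx₀⟩ := eventually_atTop.1 hall
  refine ⟨x₀, fun x hx => ?_⟩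
  obtain ⟨⟨hx1, hc1, hc2, hK1, hK2, hN1, hN2, hY1, hY2⟩, e1, e2, e3, e4, e5, e6, e7, e8⟩ :=
    hx₀ x hx
  clear hall hx₀
  have hx0 : 0 < x := by linarith
  set c : ℕ := ⌊x / 2⌋₊ with hc
  set K : ℕ := ⌈x ^ a⌉₊ with hK
  set N : ℕ := ⌊x ^ (1 - η)⌋₊ with hN
  set Y : ℕ := N / (2 * J * K) with hY
  rw [Real.rpow_one] at e4 e5 e6
  have hpa : 1 ≤ x ^ a := Real.one_le_rpow hx1 (by linarith)
  have hcpos : (0 : ℝ) < c := by linarith
  have hKpos : (0 : ℝ) < K := by linarith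
  have hxb : 0 < x ^ b := Real.rpow_pos_of_pos hx0 _
  have hYpos : (0 : ℝ) < Y := lt_of_lt_of_le (by positivity) hY1
  have hYb : (Y : ℝ) ≤ x ^ b / 2 := by
    refine hY2.trans ?_
    gcongr
    linarith
  have hba : x ^ b ≤ x ^ a := Real.rpow_le_rpow_of_exponent_le hx1 (by rw [hbdef]; linarith)
  -- conditions in natural numbers
  have n1 : Y0 ≤ Y := by
    have h1 : (Y0 : ℝ) ≤ Y := by
      refine le_trans ?_ hY1
      rw [le_div_iff₀ (by positivity)]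
      linarith
    exact_mod_cast h1
  have n2 : 2 * Y ≤ K := by
    have h1 : 2 * (Y : ℝ) ≤ K := by linarith
    exact_mod_cast h1
  have n3 : J * (2 * K * Y) ≤ N := by
    calc J * (2 * K * Y) = N / (2 * J * K) * (2 * J * K) := by rw [← hY]; ring
      _ ≤ N := Nat.div_mul_le_self _ _
  have n4 : N ≤ c := by
    have h1 : (N : ℝ) ≤ c := by linarith
    exact_mod_cast h1
  have n5 : 8 * K ≤ c := by
    have h1 : 8 * (K : ℝ) ≤ c := by linarith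
    exact_mod_cast h1
  have n6 : 4 * Y ^ 2 ≤ c := by
    have h1 : 4 * (Y : ℝ) ^ 2 ≤ c := by
      have h2 : (Y : ℝ) ^ 2 ≤ (x ^ b / 2) ^ 2 := by gcongr
      have h3 : (x ^ b) ^ 2 = x ^ (2 * b) := by
        rw [← Real.rpow_natCast, ← Real.rpow_mul hx0.le]; congr 1; push_cast; ring
      nlinarith
    exact_mod_cast h1
  have n7 : c ≤ K ^ 2 := by
    have h1 : (c : ℝ) ≤ (K : ℝ) ^ 2 := by
      have h2 : x ≤ (x ^ a) ^ 2 := by
        rw [← Real.rpow_natCast, ← Real.rpow_mul hx0.le]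
        calc x = x ^ (1 : ℝ) := (Real.rpow_one x).symm
          _ ≤ x ^ (a * (2 : ℕ)) := Real.rpow_le_rpow_of_exponent_le hx1 (by push_cast; linarith)
      have h3 : (x ^ a) ^ 2 ≤ (K : ℝ) ^ 2 := by gcongr
      linarith
    exact_mod_cast h1
  -- the size of q
  set q : ℝ := (Y : ℝ) * √((Y : ℝ) / c) with hq
  have hq1 : δ * x ^ ((3 * b - 1) / 2) ≤ q := by
    have h1 : x ^ (b - 1) / (8 * J) ≤ (Y : ℝ) / c := by
      have h2 : x ^ (b - 1) = x ^ b / x := by rw [Real.rpow_sub hx0, Real.rpow_one]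
      rw [h2, div_div, div_le_div_iff₀ (by positivity) hcpos]
      have h3 : x ^ b * c ≤ x ^ b * (x / 2) := by gcongr
      have h4 : x ^ b / (16 * J) * (x * (8 * J)) ≤ Y * (x * (8 * J)) := by gcongr
      have h5 : x ^ b / (16 * J) * (x * (8 * J)) = x ^ b * (x / 2) := by
        field_simp
        ring
      linarith
    have h2 : x ^ ((b - 1) / 2) / (8 * J) ≤ √((Y : ℝ) / c) := by
      refine Real.le_sqrt_of_sq_le ?_
      refine le_trans ?_ h1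
      rw [div_pow]
      have h3 : (x ^ ((b - 1) / 2)) ^ 2 = x ^ (b - 1) := by
        rw [← Real.rpow_natCast, ← Real.rpow_mul hx0.le]; congr 1; push_cast; ring
      rw [h3]
      have h4 : (8 * (J : ℝ)) ≤ (8 * J) ^ 2 := by nlinarith
      have h5 : 0 ≤ x ^ (b - 1) := Real.rpow_nonneg hx0.le _
      exact div_le_div_of_nonneg_left h5 (by positivity) h4
    have h3 : x ^ ((3 * b - 1) / 2) = x ^ b * x ^ ((b - 1) / 2) := by
      rw [← Real.rpow_add hx0]; congr 1; ring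
    have h4 : δ * x ^ ((3 * b - 1) / 2) = x ^ b / (16 * J) * (x ^ ((b - 1) / 2) / (8 * J)) := by
      rw [h3, hδ]
      field_simp
      ring
    rw [h4, hq]
    exact mul_le_mul hY1 h2 (by positivity) hYpos.le
  have hqpos : 0 < q := lt_of_lt_of_le (by positivity) hq1
  have m1 : (K : ℝ) ^ 2 / c ≤ c₁ * q := by
    have h1 : (K : ℝ) ^ 2 / c ≤ 16 * x ^ (2 * a - 1) := by
      rw [div_le_iff₀ hcpos]
      have h2 : (K : ℝ) ^ 2 ≤ (2 * x ^ a) ^ 2 := by gcongr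
      have h3 : (x ^ a) ^ 2 = x ^ (2 * a - 1) * x := by
        have h4 : x ^ (2 * a - 1) * x = x ^ (2 * a) := by
          rw [Real.rpow_sub hx0, Real.rpow_one]; field_simp
        rw [h4, ← Real.rpow_natCast, ← Real.rpow_mul hx0.le]; congr 1; push_cast; ring
      have h5 : 0 ≤ x ^ (2 * a - 1) := Real.rpow_nonneg hx0.le _
      have h6 : 16 * x ^ (2 * a - 1) * (x / 4) ≤ 16 * x ^ (2 * a - 1) * c := by gcongr
      nlinarith
    have h2 : 16 * x ^ (2 * a - 1) ≤ c₁ * (δ * x ^ ((3 * b - 1) / 2)) := by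
      have h3 : c₁ * δ * (16 / (c₁ * δ) * x ^ (2 * a - 1)) ≤ c₁ * δ * x ^ ((3 * b - 1) / 2) := by
        gcongr
      have h4 : c₁ * δ * (16 / (c₁ * δ) * x ^ (2 * a - 1)) = 16 * x ^ (2 * a - 1) := by
        field_simp
      linarith
    have h3 : c₁ * (δ * x ^ ((3 * b - 1) / 2)) ≤ c₁ * q := by gcongr
    linarith
  have m2 : (K : ℝ) * Y * (2 * N / c) ^ (2 * (J - 1)) * 2 ^ J ≤ c₁ * q := by
    have h1 : 2 * (N : ℝ) / c ≤ 8 * x ^ (-η) := by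
      rw [div_le_iff₀ hcpos]
      have h2 : x ^ (1 - η) = x ^ (-η) * x := by
        rw [← Real.rpow_add_one hx0.ne']; congr 1; ring
      have h3 : 0 ≤ x ^ (-η) := Real.rpow_nonneg hx0.le _
      have h4 : 8 * x ^ (-η) * (x / 4) ≤ 8 * x ^ (-η) * c := by gcongr
      nlinarith
    have h2 : (2 * (N : ℝ) / c) ^ (2 * (J - 1)) ≤ 8 ^ (2 * (J - 1)) * x ^ (-(2 : ℝ)) := by
      have h3 : (2 * (N : ℝ) / c) ^ (2 * (J - 1)) ≤ (8 * x ^ (-η)) ^ (2 * (J - 1)) := by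
        gcongr
      refine h3.trans ?_
      rw [mul_pow]
      have h4 : (x ^ (-η)) ^ (2 * (J - 1)) ≤ x ^ (-(2 : ℝ)) := by
        rw [← Real.rpow_natCast, ← Real.rpow_mul hx0.le]
        apply Real.rpow_le_rpow_of_exponent_le hx1
        linarith
      gcongr
    have h3 : (K : ℝ) * Y ≤ 2 * x ^ (1 - η) := by
      have h4 : (K : ℝ) * Y ≤ (2 * x ^ a) * (x ^ b) := by
        have : (Y : ℝ) ≤ x ^ b := by linarith
        gcongr
      have h5 : x ^ a * x ^ b = x ^ (1 - η) := by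
        rw [← Real.rpow_add hx0]; congr 1; rw [hbdef]; ring
      nlinarith
    have h4 : (K : ℝ) * Y * (2 * N / c) ^ (2 * (J - 1)) * 2 ^ J ≤
        2 * x ^ (1 - η) * (8 ^ (2 * (J - 1)) * x ^ (-(2 : ℝ))) * 2 ^ J := by
      gcongr
    have h5 : 2 * x ^ (1 - η) * (8 ^ (2 * (J - 1)) * x ^ (-(2 : ℝ))) * 2 ^ J =
        2 * 8 ^ (2 * (J - 1)) * 2 ^ J * x ^ (-1 - η) := by
      have h6 : x ^ (-1 - η) = x ^ (1 - η) * x ^ (-(2 : ℝ)) := by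
        rw [← Real.rpow_add hx0]; congr 1; ring
      rw [h6]; ring
    have h6 : 2 * 8 ^ (2 * (J - 1)) * 2 ^ J * x ^ (-1 - η) ≤
        c₁ * (δ * x ^ ((3 * b - 1) / 2)) := by
      have h7 : c₁ * δ * (2 * 8 ^ (2 * (J - 1)) * 2 ^ J / (c₁ * δ) * x ^ (-1 - η)) ≤
          c₁ * δ * x ^ ((3 * b - 1) / 2) := by gcongr
      have h8 : c₁ * δ * (2 * 8 ^ (2 * (J - 1)) * 2 ^ J / (c₁ * δ) * x ^ (-1 - η)) =
          2 * 8 ^ (2 * (J - 1)) * 2 ^ J * x ^ (-1 - η) := by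
        field_simp
      linarith
    have h7 : c₁ * (δ * x ^ ((3 * b - 1) / 2)) ≤ c₁ * q := by gcongr
    linarith
  have hmain := hcore J K Y N c hJ1 n1 n2 n3 n4 n5 n6 n7 m1 m2
  -- compare the counts
  set A : Set ℕ := {n : ℕ | n ≤ 2 * c ∧ ∃ k : ℕ, K ≤ k ∧ k < n ∧
        (Icc (n + 1) (n + k)).lcm id < (Icc (n - k + 1) n).lcm id} with hA
  set B : Set ℕ := {n : ℕ | (n : ℝ) ≤ x ∧ ∃ k : ℕ, x ^ a ≤ k ∧ k < n ∧
        (Icc (n + 1) (n + k)).lcm id < (Icc (n - k + 1) n).lcm id} with hB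
  have hBfin : B.Finite := by
    refine (Set.finite_Iic ⌊x⌋₊).subset ?_
    intro n hn
    exact Nat.le_floor hn.1
  have hAB : A ⊆ B := by
    rintro n ⟨hn, k, hk, hkn, hlt⟩
    refine ⟨?_, k, ?_, hkn, hlt⟩
    · have h1 : (n : ℝ) ≤ 2 * c := by exact_mod_cast hn
      linarith
    · have h1 : (K : ℝ) ≤ k := by exact_mod_cast hk
      linarith
  have hcard : ((A.ncard : ℕ) : ℝ) ≤ ((B.ncard : ℕ) : ℝ) := by
    exact_mod_cast Set.ncard_le_ncard hAB hBfin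
  refine le_trans ?_ hcard
  -- lower bound
  set R : ℝ := ((A.ncard : ℕ) : ℝ) with hR
  have hR0 : 0 ≤ R := Nat.cast_nonneg _
  set κ : ℝ := 1 / (2 * 2 ^ J) * δ with hκ
  have hκ0 : 0 < κ := by positivity
  have l1 : κ ^ 2 * x ^ (2 - 2 * η + 3 * b - 1) ≤ ((N : ℝ) / 2 ^ J * q) ^ 2 := by
    have h1 : κ * (x ^ (1 - η) * x ^ ((3 * b - 1) / 2)) ≤ (N : ℝ) / 2 ^ J * q := by
      have h2 : κ * (x ^ (1 - η) * x ^ ((3 * b - 1) / 2)) =
          x ^ (1 - η) / 2 / 2 ^ J * (δ * x ^ ((3 * b - 1) / 2)) := by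
        rw [hκ]; field_simp
      rw [h2]
      gcongr
    have h2 : κ ^ 2 * x ^ (2 - 2 * η + 3 * b - 1) =
        (κ * (x ^ (1 - η) * x ^ ((3 * b - 1) / 2))) ^ 2 := by
      have h3 : x ^ (2 - 2 * η + 3 * b - 1) = (x ^ (1 - η) * x ^ ((3 * b - 1) / 2)) ^ 2 := by
        rw [← Real.rpow_add hx0, ← Real.rpow_natCast, ← Real.rpow_mul hx0.le]
        congr 1
        push_cast
        ring
      rw [h3]
      ring
    rw [h2]
    gcongr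
  have l2 : C₂ * (K : ℝ) ^ 3 * Real.log (2 * K) ≤ C₂ * 8 * x ^ (3 * a + η) := by
    have h1 : (K : ℝ) ^ 3 ≤ (2 * x ^ a) ^ 3 := by gcongr
    have h2 : (2 * x ^ a) ^ 3 = 8 * x ^ (3 * a) := by
      rw [mul_pow, ← Real.rpow_natCast (x ^ a), ← Real.rpow_mul hx0.le]
      congr 1
      · norm_num
      · congr 1; push_cast; ring
    have h3 : Real.log (2 * K) ≤ x ^ η := by
      refine le_trans (Real.log_le_log (by positivity) ?_) e7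
      gcongr
    have h4 : 0 ≤ Real.log (2 * K) := by
      apply Real.log_nonneg
      linarith
    have h5 : x ^ (3 * a + η) = x ^ (3 * a) * x ^ η := Real.rpow_add hx0 _ _
    rw [h5]
    calc C₂ * (K : ℝ) ^ 3 * Real.log (2 * K) ≤ C₂ * (8 * x ^ (3 * a)) * x ^ η := by
          rw [h2] at h1
          gcongr
      _ = C₂ * 8 * (x ^ (3 * a) * x ^ η) := by ring
  have l3 : κ ^ 2 * x ^ (2 - 2 * η + 3 * b - 1) ≤ C₂ * 8 * x ^ (3 * a + η) * R := by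
    refine l1.trans (hmain.trans ?_)
    gcongr
  have l4 : x ^ (2 - 2 * η + 3 * b - 1) = x ^ (4 - 6 * a - 6 * η) * x ^ (3 * a + η) := by
    rw [← Real.rpow_add hx0]; congr 1; rw [hbdef]; ring
  have l5 : κ ^ 2 * x ^ (4 - 6 * a - 6 * η) ≤ C₂ * 8 * R := by
    have h1 : 0 < x ^ (3 * a + η) := Real.rpow_pos_of_pos hx0 _
    rw [l4] at l3
    have h2 : κ ^ 2 * x ^ (4 - 6 * a - 6 * η) * x ^ (3 * a + η) ≤
        C₂ * 8 * R * x ^ (3 * a + η) := by linarith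
    exact le_of_mul_le_mul_right h2 h1
  have l6 : C₂ * 8 * x ^ (4 - 6 * a - ε) ≤ κ ^ 2 * x ^ (4 - 6 * a - 6 * η) := by
    have h1 : κ ^ 2 * (C₂ * 8 / κ ^ 2 * x ^ (4 - 6 * a - ε)) ≤
        κ ^ 2 * x ^ (4 - 6 * a - 6 * η) := by gcongr
    have h2 : κ ^ 2 * (C₂ * 8 / κ ^ 2 * x ^ (4 - 6 * a - ε)) =
        C₂ * 8 * x ^ (4 - 6 * a - ε) := by field_simp
    linarith
  have l7 : C₂ * 8 * x ^ (4 - 6 * a - ε) ≤ C₂ * 8 * R := l6.trans l5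
  exact le_of_mul_le_mul_left l7 (by positivity)

end Helpers

/-- for `1 / 2 ≤ a < 4 / 7` there are at least `x ^ (4 - 6 a - ε)` numbers `n ≤ x` with a reversed
pair of blocks of length `k ≥ x ^ a` at `n` -/
theorem final (a ε : ℝ) (ha : 1 / 2 ≤ a) (ha' : a < 4 / 7) (hε : 0 < ε) :
    ∃ x₀ : ℝ, ∀ x : ℝ, x₀ ≤ x → x ^ (4 - 6 * a - ε) ≤
      (({n : ℕ | (n : ℝ) ≤ x ∧ ∃ k : ℕ, x ^ a ≤ k ∧ k < n ∧
        (Icc (n + 1) (n + k)).lcm id < (Icc (n - k + 1) n).lcm id}.ncard : ℕ) : ℝ) :=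
  par_final a ε ha ha' hε

end LCG
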