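import Pool.Agent.LCG.Defs

/-!
# LCG: correlation of the block indicator with a wave
-/

set_option autoImplicit false

namespace LCG

open Finset Function ArithmeticFunction LCB LCD LCE

theorem sum_sin (θ : ℝ) (κ : ℕ) :
    (∑ i ∈ range κ, Real.sin ((2 * (i : ℝ) + 1) * θ)) * Real.sin θ = Real.sin (κ * θ) ^ 2 := by
  induction κ with
  | zero => simp
  | succ n ih =>
    rw [sum_range_succ, add_mul, ih]
    have h1 : (2 * (n : ℝ) + 1) * θ = (((n + 1 : ℕ) : ℝ) * θ) + (n : ℝ) * θ := by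
      push_cast
      ring
    have h2 : Real.sin θ = Real.sin ((((n + 1 : ℕ) : ℝ) * θ) - (n : ℝ) * θ) := by
      congr 1
      push_cast
      ring
    rw [h1, h2, Real.sin_add, Real.sin_sub]
    have h3 := Real.sin_sq_add_cos_sq (((n + 1 : ℕ) : ℝ) * θ)
    have h4 := Real.sin_sq_add_cos_sq ((n : ℝ) * θ)
    have h5 : Real.cos (((n + 1 : ℕ) : ℝ) * θ) ^ 2 = 1 - Real.sin (((n + 1 : ℕ) : ℝ) * θ) ^ 2 := by
      linarith
    have h6 : Real.cos ((n : ℝ) * θ) ^ 2 = 1 - Real.sin ((n : ℝ) * θ) ^ 2 := by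
      linarith
    have h7 : ∀ a b c e : ℝ, (a * b + c * e) * (a * b - c * e) = a ^ 2 * b ^ 2 - c ^ 2 * e ^ 2 := by
      intro a b c e
      ring
    rw [h7, h5, h6]
    ring

theorem sn_eq (m n : ℕ) : sn m n = Real.sin ((2 * (n : ℝ) + 1) * (Real.pi / m)) := by
  unfold sn
  congr 1
  ring

theorem sn_refl {d m n : ℕ} (hm : 0 < m) (hmd : m ∣ d) (hn : n < d) :
    sn m (d - 1 - n) = - sn m n := by
  obtain ⟨t, rfl⟩ := hmd
  have hm0 : (m : ℝ) ≠ 0 := by positivity
  have h1 : ((m * t - 1 - n : ℕ) : ℝ) = (m : ℝ) * t - 1 - n := by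
    rw [Nat.cast_sub (by omega), Nat.cast_sub (by omega)]
    push_cast
    ring
  unfold sn
  rw [h1]
  have h2 : 2 * Real.pi * (((m : ℝ) * t - 1 - n + 1 / 2) / m) =
      - (2 * Real.pi * (((n : ℝ) + 1 / 2) / m)) + (t : ℕ) * (2 * Real.pi) := by
    field_simp
    ring
  rw [h2, Real.sin_add_nat_mul_two_pi, Real.sin_neg]

theorem av_X_sn {d m : ℕ} (hm : 2 ≤ m) (hmd : m ∣ d) (hd : 0 < d) (k : ℕ) :
    av d (fun n => X d k n * sn m n) =
      2 / d * (Real.sin (Real.pi * k / m) ^ 2 / Real.sin (Real.pi / m)) := by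
  have hm0 : 0 < m := by omega
  have hmR : (m : ℝ) ≠ 0 := by positivity
  have hκ : k % d < d := Nat.mod_lt k hd
  -- the two halves
  have hA : ∑ n ∈ range d, (if n < k % d then (1 : ℝ) else 0) * sn m n =
      ∑ n ∈ range (k % d), sn m n := by
    have h1 : range (k % d) = (range d).filter (fun n => n < k % d) := by
      ext n
      simp only [mem_filter, mem_range]
      omega
    rw [h1, sum_filter]
    refine sum_congr rfl fun n _ => ?_
    split_ifs <;> simp
  have hB : ∑ n ∈ range d, (if d ≤ n + k % d then (1 : ℝ) else 0) * sn m n =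
      - ∑ n ∈ range (k % d), sn m n := by
    rw [← sum_range_reflect, ← hA, ← sum_neg_distrib]
    refine sum_congr rfl fun n hn => ?_
    have hn' : n < d := mem_range.1 hn
    rw [sn_refl hm0 hmd hn']
    have h1 : (d ≤ d - 1 - n + k % d) ↔ (n < k % d) := by omega
    simp only [h1]
    ring
  have hsum : ∑ n ∈ range d, X d k n * sn m n = 2 * ∑ n ∈ range (k % d), sn m n := by
    have h1 : ∀ n ∈ range d, X d k n * sn m n =
        (if n < k % d then (1 : ℝ) else 0) * sn m n -
          (if d ≤ n + k % d then (1 : ℝ) else 0) * sn m n := by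
      intro n hn
      unfold X
      rw [Nat.mod_eq_of_lt (mem_range.1 hn), sub_mul]
    rw [sum_congr rfl h1, sum_sub_distrib, hA, hB]
    ring
  have hsin : 0 < Real.sin (Real.pi / m) := by
    apply Real.sin_pos_of_pos_of_lt_pi
    · positivity
    · rw [div_lt_iff₀ (by positivity)]
      have : (2 : ℝ) ≤ m := by exact_mod_cast hm
      nlinarith [Real.pi_pos]
  have hs := sum_sin (Real.pi / m) (k % d)
  have hper : Real.sin (((k % d : ℕ) : ℝ) * (Real.pi / m)) ^ 2 =
      Real.sin (Real.pi * k / m) ^ 2 := by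
    obtain ⟨t, rfl⟩ := hmd
    have h1 : Real.pi * k / m = ((k % (m * t) : ℕ) : ℝ) * (Real.pi / m) +
        ((t * (k / (m * t)) : ℕ) : ℝ) * Real.pi := by
      have h2 : (k : ℝ) = ((k % (m * t) : ℕ) : ℝ) + (m : ℝ) * t * ((k / (m * t) : ℕ) : ℝ) := by
        have h3 := Nat.mod_add_div k (m * t)
        calc (k : ℝ) = ((k % (m * t) + (m * t) * (k / (m * t)) : ℕ) : ℝ) := by rw [h3]
          _ = _ := by push_cast; ring
      rw [h2]
      push_cast
      field_simp
    rw [h1, Real.sin_add_nat_mul_pi, mul_pow, ← pow_mul, mul_comm _ 2, pow_mul]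
    norm_num
  unfold av
  rw [hsum]
  have h5 : ∑ n ∈ range (k % d), sn m n =
      Real.sin (Real.pi * k / m) ^ 2 / Real.sin (Real.pi / m) := by
    rw [eq_div_iff hsin.ne', ← hper, ← hs]
    congr 1
    exact sum_congr rfl fun n _ => sn_eq m n
  rw [h5]
  ring

end LCG
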